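import Pool.Agent.H559.SI.Bro
import Pool.Agent.H559.GU.Mx

set_option autoImplicit false

/-! # Consequences for the random primes -/

open Finset Filter Topology Polynomial
open Pool.Agent.T2H32.BF (V V_pos V_anti V_ratio recip_le mertens)
open Pool.Agent.H559.BS (Limit TT TT_le TT_ge TT_top log_TT V_TT log_pow_le log_top g g_pos)
open Pool.Agent.H559.HY (Arr evl rts rts_sub arr evl_arr Sg cnt RS box mem_box Cut OK Good cls cls_eq_iff Sg_nonneg CF)

namespace Pool.Agent.H559.SI

variable {k : ℕ}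

theorem sg_one (w : ℕ) : Sg (sh 0 (fun _ : Fin 1 => 0)) w = 1 := by
  unfold Sg
  refine prod_eq_one fun p hp => ?_
  rw [mem_filter] at hp
  have hpp := hp.2
  have e : rts (sh 0 (fun _ : Fin 1 => 0)) p 0 = {0} := by
    ext s
    unfold rts
    rw [mem_filter, mem_range, mem_singleton]
    constructor
    · rintro ⟨h1, i, h2⟩
      rw [cls_sh _ _ _ _ _ hpp.pos] at h2
      simp only [zero_add, add_zero] at h2
      exact Nat.eq_zero_of_dvd_of_lt h2 h1
    · intro h
      subst h
      refine ⟨hpp.pos, 0, ?_⟩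
      rw [cls_sh _ _ _ _ _ hpp.pos]
      simp
  rw [e, card_singleton, Nat.cast_one, pow_one]
  have h2 : (2 : ℝ) ≤ p := by exact_mod_cast hpp.two_le
  have h3 : 1 / (p : ℝ) ≤ 1 / 2 := one_div_le_one_div_of_le (by norm_num) h2
  exact div_self (by linarith)

/-- the law for the random primes -/
theorem law1 (z W : ℕ → ℕ) (hz : Limit z) (hW : Cut W) (b : ℕ → ℕ) (hOK : OK z W b) (A : ℕ) (ε : ℝ) (hA : 1 ≤ A)
    (hε : 0 < ε) : ∀ᶠ x : ℕ in atTop, ∀ X : ℕ, x ≤ X → X ≤ x ^ A →
      |({q : ℕ | X < q ∧ q ≤ X + x ∧ q ∈ RS z W b}.ncard : ℝ) * Real.log X / x - 1| ≤ ε := by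
  have hS : Tendsto (fun w : ℕ => Sg (sh 0 (fun _ : Fin 1 => 0)) w) atTop (𝓝 1) := by
    simp_rw [sg_one]
    exact tendsto_const_nhds
  filter_upwards [short z W hz hW b hOK (fun _ : Fin 1 => 0) (fun i j _ => Subsingleton.elim i j) 1 hS A hA ε hε]
    with x hx X h1 h2
  have h3 := hx X h1 h2
  rw [pow_one, cnt_sh] at h3
  have e : {n : ℕ | X < n ∧ n ≤ X + x ∧ ∀ _i : Fin 1, n + 0 ∈ RS z W b} = {q : ℕ | X < q ∧ q ≤ X + x ∧ q ∈ RS z W b} := by
    ext n
    simp
  rwa [e] at h3

/-- there are infinitely many tuples -/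
theorem inf_tuple (z W : ℕ → ℕ) (hz : Limit z) (hW : Cut W) (b : ℕ → ℕ) (hOK : OK z W b) (h : Fin k → ℕ)
    (hh : Function.Injective h) (hadm : ∀ p : ℕ, p.Prime → (rts (sh 0 h) p 0).card < p) (N : ℕ) :
    ∃ n : ℕ, N < n ∧ ∀ i, n + h i ∈ RS z W b := by
  obtain ⟨S, hS, hS0⟩ := sg_tuple h hh
  have hpos := hS0 hadm
  have h1 := short z W hz hW b hOK h hh S hS 1 le_rfl (S / 2) (by linarith)
  obtain ⟨x, hx, hx2⟩ := (h1.and (eventually_ge_atTop (N + 3))).exists
  have h2 := hx x le_rfl (by rw [pow_one])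
  have h3 : 0 < cnt (sh x h) (RS z W b) 0 x := by
    rw [Nat.pos_iff_ne_zero]
    intro h4
    rw [h4, Nat.cast_zero, zero_mul, zero_div, zero_sub, abs_neg, abs_of_pos hpos] at h2
    linarith
  rw [cnt_sh] at h3
  obtain ⟨n, h4, h5, h6⟩ := Set.nonempty_of_ncard_ne_zero h3.ne'
  exact ⟨n, by omega, h6⟩

theorem twin_adm (p : ℕ) (hp : p.Prime) : (rts (sh 0 ![0, 2]) p 0).card < p := by
  rcases hp.eq_two_or_odd with h2 | h2
  · subst h2
    have h1 : rts (sh 0 ![0, 2]) 2 0 ⊆ {0} := by
      intro s hs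
      unfold rts at hs
      rw [mem_filter, mem_range] at hs
      obtain ⟨h1, i, h3⟩ := hs
      rw [cls_sh _ _ _ _ _ (by norm_num)] at h3
      rw [mem_singleton]
      fin_cases i
      · simp at h3
        omega
      · simp at h3
        omega
    have := card_le_card h1
    rw [card_singleton] at this
    omega
  · have h3 : 3 ≤ p := by
      have := hp.two_le
      omega
    have h1 : rts (sh 0 ![0, 2]) p 0 ⊆ {0, p - 2} := by
      intro s hs
      unfold rts at hs
      rw [mem_filter, mem_range] at hs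
      obtain ⟨h1, i, h4⟩ := hs
      rw [cls_sh _ _ _ _ _ hp.pos] at h4
      rw [mem_insert, mem_singleton]
      fin_cases i
      · simp at h4
        exact Or.inl (Nat.eq_zero_of_dvd_of_lt h4 h1)
      · simp at h4
        obtain ⟨c, hc⟩ := h4
        have h5 : c < 2 := by
          by_contra h6
          push Not at h6
          have : p * 2 ≤ p * c := Nat.mul_le_mul_left _ h6
          omega
        interval_cases c
        · omega
        · right
          omega
    have := (card_le_card h1).trans (card_le_two)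
    omega

/-- the random primes are odd from some point on -/
theorem odd_ev (z W : ℕ → ℕ) (hz : Limit z) (hW : Cut W) (b : ℕ → ℕ) : ∀ᶠ v : ℕ in atTop, v ∈ RS z W b → v % 2 = 1 := by
  have h1 : Tendsto (fun n : ℕ => (W n : ℝ)) atTop atTop := by
    have h2 := hW.top.atTop_mul_atTop₀ log_top
    refine h2.congr' ?_
    filter_upwards [log_top.eventually_ge_atTop 1] with n hn
    rw [div_mul_cancel₀ _ (by linarith : Real.log n ≠ 0)]
  have h3 : ∀ᶠ v : ℕ in atTop, 2 ≤ z v := by
    have h4 := hz.2.eventually_lt_const (show (1 : ℝ) < 2 by norm_num)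
    filter_upwards [h4, log_top.eventually_ge_atTop (2 / V 1)] with v h5 h6
    by_contra h7
    have h8 : V 1 ≤ V (z v) := V_anti (by omega)
    have h9 := V_pos 1
    rw [div_le_iff₀ h9] at h6
    have h10 : 0 ≤ Real.log v := Real.log_natCast_nonneg v
    nlinarith
  filter_upwards [h3, h1.eventually_ge_atTop 2] with v h4 h5 hv
  have h6 : 2 ≤ W v := by exact_mod_cast h5
  have h7 := hv.2 2 h4 Nat.prime_two
  rw [if_pos h6] at h7
  omega

section Nth

variable (T : Set ℕ)

/-- the elements in increasing order -/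
noncomputable def el (n : ℕ) : ℕ := Nat.nth (· ∈ T) n

theorem el_mono (hT : T.Infinite) : StrictMono (el T) := Nat.nth_strictMono hT

theorem el_mem (hT : T.Infinite) (n : ℕ) : el T n ∈ T := Nat.nth_mem_of_infinite hT n

theorem el_succ (hT : T.Infinite) (m m' : ℕ) (h1 : m ∈ T) (h2 : m' ∈ T) (h3 : m < m') (h4 : ∀ u, m < u → u < m' → u ∉ T) :
    ∃ n, el T n = m ∧ el T (n + 1) = m' := by
  classical
  refine ⟨Nat.count (· ∈ T) m, Nat.nth_count h1, ?_⟩
  have h5 : el T (Nat.count (· ∈ T) m) = m := Nat.nth_count h1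
  have h6 : el T (Nat.count (· ∈ T) m') = m' := Nat.nth_count h2
  have h7 := el_mono T hT
  have h8 : Nat.count (· ∈ T) m < Nat.count (· ∈ T) m' := by
    rw [← h7.lt_iff_lt, h5, h6]
    exact h3
  refine le_antisymm ?_ ?_
  · rw [← h6]
    exact h7.monotone h8
  · by_contra hcon
    push Not at hcon
    refine h4 _ ?_ hcon (el_mem T hT _)
    conv_lhs => rw [← h5]
    exact h7 (Nat.lt_succ_self _)

theorem el_le (hT : T.Infinite) (n m : ℕ) (h1 : m ∈ T) (h2 : el T n < m) : el T (n + 1) ≤ m := by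
  classical
  have h6 : el T (Nat.count (· ∈ T) m) = m := Nat.nth_count h1
  rw [← h6] at h2 ⊢
  have h7 := el_mono T hT
  rw [h7.lt_iff_lt] at h2
  exact h7.monotone h2

end Nth

end Pool.Agent.H559.SI
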