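import Pool.Agent.H559.SI.GWS
import Pool.Agent.H559.SI.Cons

set_option autoImplicit false

/-! # Goldbach's problem with a summand in a window: windows of length `N ^ δ`, primorial intervals -/

open Finset Filter Topology
open Pool.Agent.T2H32.BF (V V_pos V_anti V_ratio recip_le mertens)
open Pool.Agent.H559.BS (Limit TT TT_le TT_ge TT_top log_TT V_TT log_pow_le log_top g g_pos)
open Pool.Agent.H559.HY
open Pool.Agent.T2H32.GB (C2 C2_succ C2_pos C2_anti C2_ge)

namespace Pool.Agent.H559.SI

/-- transfer of the density -/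
theorem V_trans (z : ℕ → ℕ) (hz : Limit z) (X : ℕ → ℕ) (L : ℕ → ℝ) (hX : Tendsto X atTop atTop)
    (hL : Tendsto (fun n => L n / Real.log (X n)) atTop (𝓝 1)) : Tendsto (fun n => V (z (X n)) * L n) atTop (𝓝 1) := by
  have h1 := (hz.2.comp hX).mul hL
  rw [mul_one] at h1
  refine h1.congr' ?_
  filter_upwards [(log_top.comp hX).eventually_ge_atTop 1] with n hn
  simp only [Function.comp_apply] at hn ⊢
  have : Real.log (X n) ≠ 0 := by linarith
  field_simp

theorem log_near (X Y : ℕ → ℕ) (hX : Tendsto X atTop atTop) (hXY : ∀ᶠ n in atTop, X n ≤ Y n ∧ Y n ≤ 2 * X n) :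
    Tendsto (fun n => Real.log (Y n) / Real.log (X n)) atTop (𝓝 1) := by
  have hlX : Tendsto (fun x => Real.log (X x)) atTop atTop := log_top.comp hX
  have h3 : Tendsto (fun x => 1 + Real.log 2 / Real.log (X x)) atTop (𝓝 (1 + 0)) :=
    tendsto_const_nhds.add (tendsto_const_nhds.div_atTop hlX)
  rw [add_zero] at h3
  refine tendsto_of_tendsto_of_tendsto_of_le_of_le' tendsto_const_nhds h3 ?_ ?_
  · filter_upwards [hXY, hlX.eventually_ge_atTop 1, hX.eventually_ge_atTop 1] with x a1 a2 a3
    rw [le_div_iff₀ (by linarith), one_mul]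
    exact Real.log_le_log (by exact_mod_cast a3) (by exact_mod_cast a1.1)
  · filter_upwards [hXY, hlX.eventually_ge_atTop 1, hX.eventually_ge_atTop 1] with x a0 a2 a3
    have hX0 : (0 : ℝ) < X x := by exact_mod_cast a3
    have hY0 : (0 : ℝ) < Y x := by exact_mod_cast (by omega : 0 < Y x)
    have h4 : Real.log (Y x) ≤ Real.log 2 + Real.log (X x) := by
      rw [← Real.log_mul (by norm_num) hX0.ne']
      refine Real.log_le_log hY0 ?_
      exact_mod_cast a0.2
    rw [div_le_iff₀ (by linarith), add_mul, div_mul_cancel₀ _ (by linarith : Real.log (X x) ≠ 0)]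
    linarith

theorem TT_le_self (x : ℕ) (hx : 1 ≤ x) : TT (1 / 4) x ≤ x := by
  have h3 := TT_le (1 / 4) x
  have h4 : (x : ℝ) ^ (1 / 4 : ℝ) ≤ (x : ℝ) ^ (1 : ℝ) :=
    Real.rpow_le_rpow_of_exponent_le (by exact_mod_cast hx) (by norm_num)
  rw [Real.rpow_one] at h4
  exact_mod_cast h3.trans h4

/-- **Goldbach's problem with a summand in `(u, u + y]`, `N ^ δ ≤ y`.** -/
theorem gshort (z W : ℕ → ℕ) (hz : Limit z) (hW : Cut W) (b : ℕ → ℕ) (hOK : OK z W b) (c₂ : ℝ) (hc0 : 0 < c₂)
    (hc : Tendsto C2 atTop (𝓝 c₂)) (δ ε : ℝ) (hδ : 0 < δ) (hε : 0 < ε) :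
    ∀ᶠ N : ℕ in atTop, Even N → ∀ u y : ℕ, (N : ℝ) ^ δ ≤ y → y ≤ u → u + 2 * y ≤ N →
      |(gw (RS z W b) N u y : ℝ) * (Real.log u * Real.log ((N - u : ℕ) : ℝ)) / (y * TG c₂ N) - 1| ≤ ε := by
  by_contra hcon
  rw [not_eventually] at hcon
  obtain ⟨φ, hφ, hφ2⟩ := extraction_of_frequently_atTop hcon
  push Not at hφ2
  choose hev u y hy hyu huy hbad using hφ2
  have hφt : Tendsto φ atTop atTop := hφ.tendsto_atTop
  obtain ⟨A, hA⟩ := exists_nat_ge (max 1 (1 / δ))
  have hA1 : 1 ≤ A := by
    have : (1 : ℝ) ≤ A := (le_max_left _ _).trans hA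
    exact_mod_cast this
  have hAδ : 1 ≤ δ * A := by
    have h1 := (le_max_right _ _).trans hA
    rw [div_le_iff₀ hδ] at h1
    linarith
  have hyt : Tendsto y atTop atTop := by
    rw [← tendsto_natCast_atTop_iff (R := ℝ)]
    have h1 : Tendsto (fun n : ℕ => (n : ℝ) ^ δ) atTop atTop := (tendsto_rpow_atTop hδ).comp tendsto_natCast_atTop_atTop
    exact tendsto_atTop_mono hy (h1.comp hφt)
  have hpw : ∀ᶠ n in atTop, φ n ≤ y n ^ A := by
    filter_upwards [hφt.eventually_ge_atTop 1] with n hn
    have hX : (1 : ℝ) ≤ φ n := by exact_mod_cast hn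
    have h9 : (φ n : ℝ) ≤ (y n : ℝ) ^ A := by
      calc (φ n : ℝ) = (φ n : ℝ) ^ (1 : ℝ) := (Real.rpow_one _).symm
        _ ≤ (φ n : ℝ) ^ (δ * A) := Real.rpow_le_rpow_of_exponent_le hX hAδ
        _ = ((φ n : ℝ) ^ δ) ^ A := by rw [Real.rpow_mul (by linarith), Real.rpow_natCast]
        _ ≤ (y n : ℝ) ^ A := pow_le_pow_left₀ (by positivity) (hy n) A
    exact_mod_cast h9
  have hut : Tendsto u atTop atTop := tendsto_atTop_mono hyu hyt
  have hlot : Tendsto (fun n => φ n - u n - y n) atTop atTop := tendsto_atTop_mono (fun n => by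
    have := huy n
    omega) hyt
  have hmain := gseq z W hW b hOK c₂ hc0 hc A hA1 y φ u y (fun i n => if i = 0 then u n else φ n - u n - y n)
    (fun i n => if i = 0 then u n + y n else φ n - u n)
    (fun i n => if i = 0 then Real.log (u n) else Real.log ((φ n - u n : ℕ) : ℝ)) hyt ?_ ?_ ?_ ?_ ?_
  · simp only [Fin.isValue, if_true, one_ne_zero, if_false] at hmain
    rw [Metric.tendsto_nhds] at hmain
    obtain ⟨n, hn⟩ := (hmain ε hε).exists
    rw [Real.dist_eq] at hn
    exact absurd hn.le (not_le.2 (hbad n))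
  · filter_upwards [hpw, hyt.eventually_ge_atTop 1] with n h1 h2
    have h3 := huy n
    exact ⟨hev n, by omega, h1, by omega, le_rfl, by omega⟩
  · filter_upwards [hpw, hyt.eventually_ge_atTop 1] with n h1 h2 i
    have h3 := huy n
    have h4 := hyu n
    have h5 := TT_le_self (y n) h2
    have hφ0 : (0 : ℝ) < φ n := by exact_mod_cast (by omega : 0 < φ n)
    have h6 : Real.log (φ n) ≤ A * Real.log (y n) := by
      rw [← Real.log_pow]
      exact Real.log_le_log hφ0 (by exact_mod_cast h1)
    split_ifs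
    · refine ⟨h5.trans h4, by omega, Real.log_natCast_nonneg _, le_trans ?_ h6⟩
      exact Real.log_le_log (by exact_mod_cast (by omega : 0 < u n)) (by exact_mod_cast (by omega : u n ≤ φ n))
    · refine ⟨h5.trans (by omega), by omega, Real.log_natCast_nonneg _, le_trans ?_ h6⟩
      exact Real.log_le_log (by exact_mod_cast (by omega : 0 < φ n - u n)) (by exact_mod_cast (by omega : φ n - u n ≤ φ n))
  · filter_upwards [] with n m h1 h2
    have h3 := huy n
    simp only [Fin.isValue, if_true, one_ne_zero, if_false]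
    omega
  · intro i
    fin_cases i
    · simp only [Fin.zero_eta, Fin.isValue, if_true]
      exact hz.2.comp hut
    · simp only [Fin.mk_one, Fin.isValue, one_ne_zero, if_false]
      refine V_trans z hz _ _ hlot (log_near _ _ hlot (Eventually.of_forall fun n => ?_))
      have h3 := huy n
      omega
  · intro i
    fin_cases i
    · simp only [Fin.zero_eta, Fin.isValue, if_true]
      have hs : Tendsto (fun n => u n + y n) atTop atTop := tendsto_atTop_mono (fun n => Nat.le_add_right _ _) hut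
      refine V_trans z hz _ _ hs ?_
      have h1 := (log_near u (fun n => u n + y n) hut (Eventually.of_forall fun n => by
        have h3 := hyu n
        omega)).inv₀ one_ne_zero
      rw [inv_one] at h1
      refine h1.congr fun n => ?_
      rw [inv_div]
    · simp only [Fin.mk_one, Fin.isValue, one_ne_zero, if_false]
      have hs : Tendsto (fun n => φ n - u n) atTop atTop := tendsto_atTop_mono (fun n => by omega) hlot
      exact hz.2.comp hs

/-- the primorials -/
noncomputable def pr (n : ℕ) : ℕ := ∏ i ∈ range n, Nat.nth Nat.Prime i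

theorem pr_succ (n : ℕ) : pr (n + 1) = pr n * Nat.nth Nat.Prime n := prod_range_succ _ _

theorem nth_le (n : ℕ) : Nat.nth Nat.Prime n ≤ 2 ^ (n + 1) := by
  induction n with
  | zero => rw [Nat.nth_prime_zero_eq_two]; norm_num
  | succ n ih =>
    have h1 : Nat.nth Nat.Prime n ≠ 0 := (Nat.prime_nth_prime n).ne_zero
    obtain ⟨p, hp, h2, h3⟩ := Nat.exists_prime_lt_and_le_two_mul _ h1
    have h4 := el_le {p | p.Prime} Nat.infinite_setOfPred_prime n p hp h2
    have h5 : Nat.nth Nat.Prime (n + 1) ≤ p := h4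
    calc Nat.nth Nat.Prime (n + 1) ≤ 2 * Nat.nth Nat.Prime n := h5.trans h3
      _ ≤ 2 * 2 ^ (n + 1) := Nat.mul_le_mul_left _ ih
      _ = 2 ^ (n + 1 + 1) := by ring

theorem lt_nth (n : ℕ) : n < Nat.nth Nat.Prime n := by
  have h1 : StrictMono (Nat.nth Nat.Prime) := Nat.nth_strictMono Nat.infinite_setOfPred_prime
  rcases Nat.eq_zero_or_pos n with h | h
  · rw [h, Nat.nth_prime_zero_eq_two]
    norm_num
  · have h2 := h1.le_apply (x := n)
    have h3 : n ≠ Nat.nth Nat.Prime n := by
      intro h4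
      have h5 : ∀ j, j + 2 ≤ Nat.nth Nat.Prime j := by
        intro j
        induction j with
        | zero => rw [Nat.nth_prime_zero_eq_two]
        | succ j ih =>
          have h6 : Nat.nth Nat.Prime j < Nat.nth Nat.Prime (j + 1) := h1 (Nat.lt_succ_self j)
          omega
      have := h5 n
      omega
    omega

theorem fact_le (n : ℕ) : n.factorial ≤ pr n := by
  induction n with
  | zero => simp [pr]
  | succ n ih =>
    rw [pr_succ, Nat.factorial_succ, mul_comm]
    exact Nat.mul_le_mul ih (lt_nth n)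

theorem pr_pos (n : ℕ) : 0 < pr n := lt_of_lt_of_le (Nat.factorial_pos n) (fact_le n)

theorem pr_top : Tendsto pr atTop atTop :=
  tendsto_atTop_mono (fun n => (Nat.self_le_factorial n).trans (fact_le n)) tendsto_id

theorem pr_ratio : Tendsto (fun n => Real.log (pr (n + 1)) / Real.log (pr n)) atTop (𝓝 1) := by
  have h0 : Tendsto (fun n => Real.log (Nat.nth Nat.Prime n) / Real.log (pr n)) atTop (𝓝 0) := by
    rw [Metric.tendsto_nhds]
    intro ε hε
    set K : ℕ := ⌈Real.exp (2 / ε)⌉₊ + 2 with hK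
    have hK1 : 2 / ε < Real.log K := by
      have h1 : Real.exp (2 / ε) < K := by
        have := Nat.le_ceil (Real.exp (2 / ε))
        rw [hK]
        push_cast
        linarith
      have := Real.log_lt_log (Real.exp_pos _) h1
      rwa [Real.log_exp] at this
    have hf := FloorSemiring.tendsto_pow_div_factorial_atTop (K : ℝ)
    filter_upwards [hf.eventually_lt_const one_pos, eventually_ge_atTop 1] with n h1 h2
    rw [div_lt_one (by exact_mod_cast Nat.factorial_pos n)] at h1
    have h3 : (K : ℝ) ^ n ≤ pr n := h1.le.trans (by exact_mod_cast fact_le n)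
    have hK0 : (0 : ℝ) < K := by
      rw [hK]
      positivity
    have h4 : n * Real.log K ≤ Real.log (pr n) := by
      rw [← Real.log_pow]
      exact Real.log_le_log (by positivity) h3
    have h5 : Real.log (Nat.nth Nat.Prime n) ≤ (n + 1) * Real.log 2 := by
      have h6 : (Nat.nth Nat.Prime n : ℝ) ≤ 2 ^ (n + 1) := by exact_mod_cast nth_le n
      have h7 := Real.log_le_log (by exact_mod_cast (Nat.prime_nth_prime n).pos) h6
      rw [Real.log_pow] at h7
      push_cast at h7
      exact h7
    have h6 : (1 : ℝ) ≤ n := by exact_mod_cast h2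
    have h7 := Real.log_two_lt_d9
    have h8 : 0 < 2 / ε := by positivity
    have h9 : 0 < Real.log (pr n) := lt_of_lt_of_le (mul_pos (by linarith) (by linarith)) h4
    have h10 : 0 ≤ Real.log (Nat.nth Nat.Prime n) := Real.log_natCast_nonneg _
    rw [Real.dist_eq, sub_zero, abs_of_nonneg (by positivity), div_lt_iff₀ h9]
    have h11 : (n : ℝ) * (2 / ε) * ε < Real.log (pr n) * ε := by
      refine mul_lt_mul_of_pos_right (lt_of_lt_of_le ?_ h4) hε
      exact mul_lt_mul_of_pos_left hK1 (by linarith)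
    have h12 : (n : ℝ) * (2 / ε) * ε = 2 * n := by field_simp
    rw [h12] at h11
    nlinarith
  have h1 : Tendsto (fun n => 1 + Real.log (Nat.nth Nat.Prime n) / Real.log (pr n)) atTop (𝓝 (1 + 0)) :=
    tendsto_const_nhds.add h0
  rw [add_zero] at h1
  refine h1.congr' ?_
  filter_upwards [(log_top.comp pr_top).eventually_ge_atTop 1] with n hn
  simp only [Function.comp_apply] at hn
  have h2 : Real.log (pr n) ≠ 0 := by linarith
  have h3 : (pr n : ℝ) ≠ 0 := by exact_mod_cast (pr_pos n).ne'
  have h4 : (Nat.nth Nat.Prime n : ℝ) ≠ 0 := by exact_mod_cast (Nat.prime_nth_prime n).ne_zero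
  rw [pr_succ, Nat.cast_mul, Real.log_mul h3 h4]
  field_simp

end Pool.Agent.H559.SI
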