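import Pool.Agent.H559.SI.Cons

set_option autoImplicit false

/-! # Tuples given by finite sets, in short intervals and between consecutive powers -/

open Finset Filter Topology Polynomial
open Pool.Agent.T2H32.BF (V V_pos V_anti V_ratio recip_le mertens)
open Pool.Agent.H559.BS (Limit TT TT_le TT_ge TT_top log_TT V_TT log_pow_le log_top g g_pos)
open Pool.Agent.H559.HY (Arr evl rts rts_sub arr evl_arr Sg cnt RS box mem_box Cut OK Good cls cls_eq_iff Sg_nonneg CF)

namespace Pool.Agent.H559.SI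

/-- the partial products of the singular series -/
noncomputable def pS (H : Finset ℕ) (x : ℕ) : ℝ :=
  ∏ p ∈ (range (x + 1)).filter Nat.Prime, (1 - ((H.image (· % p)).card : ℝ) / p) / (1 - 1 / (p : ℝ)) ^ H.card

/-- the enumeration of a finite set -/
noncomputable def en (H : Finset ℕ) : Fin H.card → ℕ := fun i => (H.equivFin.symm i : ℕ)

theorem en_inj (H : Finset ℕ) : Function.Injective (en H) := fun i j h =>
  H.equivFin.symm.injective (Subtype.ext h)

theorem en_all (H : Finset ℕ) (Q : ℕ → Prop) : (∀ i, Q (en H i)) ↔ ∀ h ∈ H, Q h := by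
  constructor
  · intro h1 h hh
    have := h1 (H.equivFin ⟨h, hh⟩)
    unfold en at this
    rwa [Equiv.symm_apply_apply] at this
  · intro h1 i
    exact h1 _ (H.equivFin.symm i).2

theorem rts_card_en (H : Finset ℕ) (p : ℕ) (hp : 0 < p) :
    (rts (sh 0 (en H)) p 0).card = (H.image (· % p)).card := by
  have e : rts (sh 0 (en H)) p 0 = (H.image (· % p)).image (fun r => (p - r) % p) := by
    ext s
    unfold rts
    rw [mem_filter, mem_range, mem_image]
    constructor
    · rintro ⟨h1, i, h2⟩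
      rw [cls_sh _ _ _ _ _ hp, zero_add] at h2
      refine ⟨en H i % p, mem_image.2 ⟨en H i, (H.equivFin.symm i).2, rfl⟩, ?_⟩
      have h3 := Nat.mod_lt (en H i) hp
      have h4 : (s + en H i % p) % p = 0 := by
        rw [Nat.add_mod_mod]
        exact Nat.dvd_iff_mod_eq_zero.1 h2
      rcases Nat.eq_zero_or_pos (en H i % p) with h5 | h5
      · rw [h5, Nat.sub_zero, Nat.mod_self]
        rw [h5, add_zero, Nat.mod_eq_of_lt h1] at h4
        exact h4.symm
      · rw [Nat.mod_eq_of_lt (by omega)]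
        have h6 : s + en H i % p = p := by
          have h7 : p ∣ s + en H i % p := Nat.dvd_iff_mod_eq_zero.2 h4
          obtain ⟨c, hc⟩ := h7
          have h8 : c = 1 := by
            rcases Nat.lt_or_ge c 1 with h9 | h9
            · have : c = 0 := by omega
              subst this
              omega
            · rcases Nat.lt_or_ge c 2 with h10 | h10
              · omega
              · have : p * 2 ≤ p * c := Nat.mul_le_mul_left _ h10
                omega
          rw [h8, mul_one] at hc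
          exact hc
        omega
    · rintro ⟨r, hr, h2⟩
      rw [mem_image] at hr
      obtain ⟨h, hh, h3⟩ := hr
      rw [← h2]
      refine ⟨Nat.mod_lt _ hp, H.equivFin ⟨h, hh⟩, ?_⟩
      rw [cls_sh _ _ _ _ _ hp, zero_add]
      have h4 : en H (H.equivFin ⟨h, hh⟩) = h := by
        unfold en
        rw [Equiv.symm_apply_apply]
      rw [h4]
      have h5 : r < p := by
        rw [← h3]
        exact Nat.mod_lt _ hp
      rw [Nat.dvd_iff_mod_eq_zero, Nat.mod_add_mod]
      have h6 : p - r + h = p * (h / p + 1) := by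
        have h7 := Nat.div_add_mod h p
        rw [Nat.mul_add, mul_one]
        omega
      rw [h6, Nat.mul_mod_right]
  rw [e]
  refine card_image_of_injOn ?_
  intro r hr r' hr' h1
  simp only [coe_image, Set.mem_image, SetLike.mem_coe] at hr hr'
  obtain ⟨h, _, h2⟩ := hr
  obtain ⟨h', _, h3⟩ := hr'
  have h4 : r < p := by rw [← h2]; exact Nat.mod_lt _ hp
  have h5 : r' < p := by rw [← h3]; exact Nat.mod_lt _ hp
  dsimp only at h1
  rcases Nat.eq_zero_or_pos r with h6 | h6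
  · rcases Nat.eq_zero_or_pos r' with h7 | h7
    · omega
    · rw [h6, Nat.sub_zero, Nat.mod_self, Nat.mod_eq_of_lt (by omega)] at h1
      omega
  · rcases Nat.eq_zero_or_pos r' with h7 | h7
    · rw [h7, Nat.sub_zero, Nat.mod_self, Nat.mod_eq_of_lt (by omega)] at h1
      omega
    · rw [Nat.mod_eq_of_lt (by omega), Nat.mod_eq_of_lt (by omega)] at h1
      omega

theorem Sg_en (H : Finset ℕ) (x : ℕ) : Sg (sh 0 (en H)) x = pS H x := by
  unfold Sg pS
  refine prod_congr rfl fun p hp => ?_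
  rw [rts_card_en H p (mem_filter.1 hp).2.pos]

/-- the singular series exists and is positive for the admissible tuples -/
theorem pS_conv (H : Finset ℕ) :
    ∃ S : ℝ, Tendsto (pS H) atTop (𝓝 S) ∧ ((∀ p : ℕ, p.Prime → (H.image (· % p)).card < p) → 0 < S) := by
  obtain ⟨S, hS, hS0⟩ := sg_tuple (en H) (en_inj H)
  refine ⟨S, hS.congr fun w => Sg_en H w, fun h => hS0 fun p hp => ?_⟩
  rw [rts_card_en H p hp.pos]
  exact h p hp

/-- the number of the places of the tuple in `(X, X + y]` -/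
noncomputable def cH (T : Set ℕ) (H : Finset ℕ) (X y : ℕ) : ℕ := {n : ℕ | X < n ∧ n ≤ X + y ∧ ∀ h ∈ H, n + h ∈ T}.ncard

theorem cH_eq (T : Set ℕ) (H : Finset ℕ) (X y : ℕ) : cnt (sh X (en H)) T 0 y = cH T H X y := by
  rw [cnt_sh]
  unfold cH
  congr 1
  ext n
  simp only [Set.mem_ofPred_eq]
  rw [en_all H (fun h => n + h ∈ T)]

/-- **The asymptotic formula in all the intervals `(X, X + y]` with `X ^ δ ≤ y ≤ X`.** -/
theorem tup (z W : ℕ → ℕ) (hz : Limit z) (hW : Cut W) (b : ℕ → ℕ) (hOK : OK z W b) (H : Finset ℕ) (S : ℝ)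
    (hS : Tendsto (pS H) atTop (𝓝 S)) (δ ε : ℝ) (hδ : 0 < δ) (hε : 0 < ε) :
    ∀ᶠ X : ℕ in atTop, ∀ y : ℕ, (X : ℝ) ^ δ ≤ y → y ≤ X →
      |(cH (RS z W b) H X y : ℝ) * Real.log X ^ H.card / y - S| ≤ ε := by
  obtain ⟨A, hA⟩ := exists_nat_ge (max 1 (1 / δ))
  have hA1 : 1 ≤ A := by
    have : (1 : ℝ) ≤ A := (le_max_left _ _).trans hA
    exact_mod_cast this
  have hAδ : 1 ≤ δ * A := by
    have h1 := (le_max_right _ _).trans hA
    rw [div_le_iff₀ hδ] at h1
    linarith
  have h1 := short z W hz hW b hOK (en H) (en_inj H) S (hS.congr fun w => (Sg_en H w).symm) A hA1 ε hε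
  obtain ⟨y0, hy0⟩ := eventually_atTop.1 h1
  have h2 : Tendsto (fun n : ℕ => (n : ℝ) ^ δ) atTop atTop := (tendsto_rpow_atTop hδ).comp tendsto_natCast_atTop_atTop
  filter_upwards [h2.eventually_ge_atTop (y0 : ℝ), eventually_ge_atTop 1] with X h3 h4 y h5 h6
  have h7 : y0 ≤ y := by exact_mod_cast h3.trans h5
  have h8 : X ≤ y ^ A := by
    have hX : (1 : ℝ) ≤ X := by exact_mod_cast h4
    have h9 : (X : ℝ) ≤ (y : ℝ) ^ A := by
      calc (X : ℝ) = (X : ℝ) ^ (1 : ℝ) := (Real.rpow_one _).symm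
        _ ≤ (X : ℝ) ^ (δ * A) := Real.rpow_le_rpow_of_exponent_le hX hAδ
        _ = ((X : ℝ) ^ δ) ^ A := by rw [Real.rpow_mul (by linarith), Real.rpow_natCast]
        _ ≤ (y : ℝ) ^ A := pow_le_pow_left₀ (by positivity) h5 A
    exact_mod_cast h9
  have h9 := hy0 y h7 X h6 h8
  rwa [cH_eq] at h9

/-- the number of the tuples strictly between `n ^ d` and `(n + 1) ^ d` -/
noncomputable def tp (T : Set ℕ) (H : Finset ℕ) (d n : ℕ) : ℕ :=
  {m : ℕ | n ^ d < m ∧ ∀ h ∈ H, m + h < (n + 1) ^ d ∧ m + h ∈ T}.ncard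

theorem pow_tup (T : Set ℕ) (H : Finset ℕ) (hH : H.Nonempty) (S : ℝ) (hT : ∀ δ ε : ℝ, 0 < δ → 0 < ε →
    ∀ᶠ X : ℕ in atTop, ∀ y : ℕ, (X : ℝ) ^ δ ≤ y → y ≤ X → |(cH T H X y : ℝ) * Real.log X ^ H.card / y - S| ≤ ε)
    (d : ℕ) (hd : 2 ≤ d) :
    Tendsto (fun n : ℕ => (tp T H d n : ℝ) * (d * Real.log n) ^ H.card / (d * (n : ℝ) ^ (d - 1))) atTop (𝓝 S) := by
  classical
  have hd0 : (0 : ℝ) < d := by exact_mod_cast (by omega : 0 < d)
  set y : ℕ → ℕ := fun n => (n + 1) ^ d - n ^ d with hy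
  have hle : ∀ n, n ^ d ≤ (n + 1) ^ d := fun n => Nat.pow_le_pow_left (by omega) d
  have hye : ∀ n, n ^ d + y n = (n + 1) ^ d := fun n => by
    rw [hy]
    dsimp only
    have := hle n
    omega
  have hpd : Tendsto (fun n : ℕ => n ^ d) atTop atTop := tendsto_pow_atTop (by omega)
  -- the size of `y`
  have hrat : Tendsto (fun n : ℕ => (y n : ℝ) / (d * (n : ℝ) ^ (d - 1))) atTop (𝓝 1) := by
    have h1 : Tendsto (fun n : ℕ => ((n + 1 : ℕ) : ℝ) / n) atTop (𝓝 1) := by
      have h2 : Tendsto (fun n : ℕ => 1 + (1 : ℝ) / n) atTop (𝓝 (1 + 0)) :=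
        tendsto_const_nhds.add tendsto_one_div_atTop_nhds_zero_nat
      rw [add_zero] at h2
      refine h2.congr' ?_
      filter_upwards [eventually_ge_atTop 1] with n hn
      have : (0 : ℝ) < n := by exact_mod_cast hn
      push_cast
      field_simp
    have h2 : Tendsto (fun n : ℕ => ∑ i ∈ range d, (((n + 1 : ℕ) : ℝ) / n) ^ i) atTop (𝓝 (d : ℝ)) := by
      have h3 : Tendsto (fun n : ℕ => ∑ i ∈ range d, (((n + 1 : ℕ) : ℝ) / n) ^ i) atTop (𝓝 (∑ i ∈ range d, (1 : ℝ) ^ i)) :=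
        tendsto_finsetSum _ fun i _ => h1.pow i
      simpa using h3
    have h3 := h2.div_const (d : ℝ)
    rw [div_self hd0.ne'] at h3
    refine h3.congr' ?_
    filter_upwards [eventually_ge_atTop 1] with n hn
    have hn0 : (0 : ℝ) < n := by exact_mod_cast hn
    have h4 : (y n : ℝ) = ((n + 1 : ℕ) : ℝ) ^ d - (n : ℝ) ^ d := by
      rw [hy]
      dsimp only
      rw [Nat.cast_sub (hle n)]
      push_cast
      ring
    have h5 : ∑ i ∈ range d, ((n + 1 : ℕ) : ℝ) ^ i * (n : ℝ) ^ (d - 1 - i) =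
        (∑ i ∈ range d, (((n + 1 : ℕ) : ℝ) / n) ^ i) * (n : ℝ) ^ (d - 1) := by
      rw [sum_mul]
      refine sum_congr rfl fun i hi => ?_
      rw [mem_range] at hi
      have e : d - 1 = i + (d - 1 - i) := by omega
      rw [div_pow, div_mul_eq_mul_div, eq_div_iff (by positivity)]
      calc ((n + 1 : ℕ) : ℝ) ^ i * (n : ℝ) ^ (d - 1 - i) * (n : ℝ) ^ i =
          ((n + 1 : ℕ) : ℝ) ^ i * ((n : ℝ) ^ i * (n : ℝ) ^ (d - 1 - i)) := by ring
        _ = ((n + 1 : ℕ) : ℝ) ^ i * (n : ℝ) ^ (d - 1) := by rw [← pow_add, ← e]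
    rw [h4, ← geom_sum₂_mul, h5]
    have h6 : ((n + 1 : ℕ) : ℝ) - n = 1 := by
      push_cast
      ring
    rw [h6]
    field_simp
  have hylow : ∀ᶠ n : ℕ in atTop, ((n ^ d : ℕ) : ℝ) ^ (1 / 4 : ℝ) ≤ y n ∧ y n ≤ n ^ d := by
    filter_upwards [hrat.eventually_lt_const (show (1 : ℝ) < 2 by norm_num), hrat.eventually_const_lt (show (1 / 2 : ℝ) < 1 by norm_num),
      eventually_ge_atTop (2 * d + 1)] with n h1 h2 h3
    have hn0 : (0 : ℝ) < n := by exact_mod_cast (by omega : 0 < n)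
    have hn1 : (1 : ℝ) ≤ n := by exact_mod_cast (by omega : 1 ≤ n)
    rw [div_lt_iff₀ (by positivity)] at h1
    rw [lt_div_iff₀ (by positivity)] at h2
    have e : (n : ℝ) ^ d = n * (n : ℝ) ^ (d - 1) := by
      rw [← pow_succ']
      congr 1
      omega
    constructor
    · have h4 : (1 : ℝ) ≤ d / 2 := by
        have : (2 : ℝ) ≤ d := by exact_mod_cast hd
        linarith
      have h5 : (n : ℝ) ^ (d - 1) ≤ y n := by
        have : 0 < (n : ℝ) ^ (d - 1) := by positivity
        nlinarith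
      refine le_trans ?_ h5
      push_cast
      rw [← Real.rpow_natCast (n : ℝ) (d - 1), ← Real.rpow_natCast (n : ℝ) d, ← Real.rpow_mul hn0.le]
      refine Real.rpow_le_rpow_of_exponent_le hn1 ?_
      rw [Nat.cast_sub (by omega)]
      have : (2 : ℝ) ≤ d := by exact_mod_cast hd
      push_cast
      linarith
    · have h4 : (y n : ℝ) ≤ ((n ^ d : ℕ) : ℝ) := by
        push_cast
        rw [e]
        have h5 : (2 * d : ℝ) ≤ n := by exact_mod_cast (by omega : 2 * d ≤ n)
        have : 0 < (n : ℝ) ^ (d - 1) := by positivity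
        nlinarith
      exact_mod_cast h4
  -- the law
  have hlaw : Tendsto (fun n : ℕ => (cH T H (n ^ d) (y n) : ℝ) * Real.log ((n ^ d : ℕ) : ℝ) ^ H.card / y n) atTop (𝓝 S) := by
    rw [Metric.tendsto_nhds]
    intro ε hε
    filter_upwards [hpd.eventually (hT (1 / 4) (ε / 2) (by norm_num) (by linarith)), hylow] with n h1 h2
    rw [Real.dist_eq]
    exact lt_of_le_of_lt (h1 (y n) h2.1 h2.2) (by linarith)
  -- the end
  set M := H.max' hH with hM
  have hc1 : ∀ n, tp T H d n ≤ cH T H (n ^ d) (y n) := by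
    intro n
    unfold tp cH
    refine Set.ncard_le_ncard ?_ ((Set.finite_Iic (n ^ d + y n)).subset fun q hq => hq.2.1)
    rintro m ⟨h1, h2⟩
    obtain ⟨h, hh⟩ := hH
    refine ⟨h1, ?_, fun h hh => (h2 h hh).2⟩
    rw [hye]
    have := (h2 h hh).1
    omega
  have hc2 : ∀ n, cH T H (n ^ d) (y n) ≤ tp T H d n + (M + 1) := by
    intro n
    have h1 : {m : ℕ | n ^ d < m ∧ m ≤ n ^ d + y n ∧ ∀ h ∈ H, m + h ∈ T} ⊆
        {m : ℕ | n ^ d < m ∧ ∀ h ∈ H, m + h < (n + 1) ^ d ∧ m + h ∈ T} ∪ Set.Icc ((n + 1) ^ d - M) ((n + 1) ^ d) := by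
      rintro m ⟨h1, h2, h3⟩
      rw [hye] at h2
      rcases lt_or_ge m ((n + 1) ^ d - M) with h4 | h4
      · left
        refine ⟨h1, fun h hh => ⟨?_, h3 h hh⟩⟩
        have := H.le_max' h hh
        omega
      · right
        exact ⟨h4, h2⟩
    have hfin : {m : ℕ | n ^ d < m ∧ ∀ h ∈ H, m + h < (n + 1) ^ d ∧ m + h ∈ T}.Finite := by
      refine (Set.finite_Iic ((n + 1) ^ d)).subset fun m hm => ?_
      obtain ⟨h, hh⟩ := hH
      have := (hm.2 h hh).1
      exact (by omega : m ≤ (n + 1) ^ d)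
    unfold cH tp
    refine (Set.ncard_le_ncard h1 (hfin.union (Set.finite_Icc _ _))).trans ((Set.ncard_union_le _ _).trans ?_)
    refine Nat.add_le_add_left ?_ _
    rw [← Finset.coe_Icc, Set.ncard_coe_finset, Nat.card_Icc]
    omega
  have hsm : Tendsto (fun n : ℕ => ((M : ℝ) + 1) * (Real.log ((n ^ d : ℕ) : ℝ) ^ H.card / y n)) atTop (𝓝 0) := by
    have h1 : Tendsto (fun x : ℕ => Real.log x ^ H.card / (x : ℝ) ^ (1 / 4 : ℝ)) atTop (𝓝 0) := by
      have h2 : (fun x : ℝ => Real.log x ^ H.card) =o[atTop] fun x => x ^ (1 / 4 : ℝ) := by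
        have := isLittleO_log_rpow_rpow_atTop (s := 1 / 4) (H.card : ℝ) (by norm_num)
        simpa using this
      exact (h2.tendsto_div_nhds_zero).comp tendsto_natCast_atTop_atTop
    have h2 := h1.comp hpd
    have h3 : Tendsto (fun n : ℕ => Real.log ((n ^ d : ℕ) : ℝ) ^ H.card / y n) atTop (𝓝 0) := by
      refine squeeze_zero' (Eventually.of_forall fun n => ?_) ?_ h2
      · have := Real.log_natCast_nonneg (n ^ d)
        positivity
      · filter_upwards [hylow, eventually_ge_atTop 1] with n h4 h5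
        have h6 : (0 : ℝ) < ((n ^ d : ℕ) : ℝ) ^ (1 / 4 : ℝ) := by
          have : (0 : ℝ) < ((n ^ d : ℕ) : ℝ) := by exact_mod_cast Nat.pow_pos h5
          positivity
        have h7 : 0 ≤ Real.log ((n ^ d : ℕ) : ℝ) ^ H.card := pow_nonneg (Real.log_natCast_nonneg _) _
        simp only [Function.comp_apply]
        exact div_le_div_of_nonneg_left h7 h6 h4.1
    have h4 := h3.const_mul ((M : ℝ) + 1)
    rwa [mul_zero] at h4
  have hN : Tendsto (fun n : ℕ => (tp T H d n : ℝ) * Real.log ((n ^ d : ℕ) : ℝ) ^ H.card / y n) atTop (𝓝 S) := by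
    have h1 := hlaw.sub hsm
    rw [sub_zero] at h1
    refine tendsto_of_tendsto_of_tendsto_of_le_of_le' h1 hlaw (Eventually.of_forall fun n => ?_)
      (Eventually.of_forall fun n => ?_)
    · have h2 : (cH T H (n ^ d) (y n) : ℝ) ≤ tp T H d n + (M + 1) := by exact_mod_cast hc2 n
      have h3 : 0 ≤ Real.log ((n ^ d : ℕ) : ℝ) ^ H.card := pow_nonneg (Real.log_natCast_nonneg _) _
      rw [← mul_div_assoc, ← sub_div]
      refine div_le_div_of_nonneg_right ?_ (Nat.cast_nonneg _)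
      nlinarith
    · have h2 : (tp T H d n : ℝ) ≤ cH T H (n ^ d) (y n) := by exact_mod_cast hc1 n
      refine div_le_div_of_nonneg_right ?_ (Nat.cast_nonneg _)
      exact mul_le_mul_of_nonneg_right h2 (pow_nonneg (Real.log_natCast_nonneg _) _)
  have hfin := hN.mul hrat
  rw [mul_one] at hfin
  refine hfin.congr' ?_
  filter_upwards [hylow, eventually_ge_atTop 1] with n h4 h5
  have hn0 : (0 : ℝ) < n := by exact_mod_cast h5
  have h6 : (y n : ℝ) ≠ 0 := by
    have h7 : (0 : ℝ) < ((n ^ d : ℕ) : ℝ) ^ (1 / 4 : ℝ) := by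
      have : (0 : ℝ) < ((n ^ d : ℕ) : ℝ) := by exact_mod_cast Nat.pow_pos h5
      positivity
    exact (lt_of_lt_of_le h7 h4.1).ne'
  have h7 : Real.log ((n ^ d : ℕ) : ℝ) = d * Real.log n := by
    push_cast
    rw [Real.log_pow]
  rw [h7]
  field_simp

end Pool.Agent.H559.SI
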