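import Pool.Agent.H559.PV.SPos

set_option autoImplicit false

/-! # Shifted tuples -/

open Finset Filter Topology Polynomial
open Pool.Agent.T2H32.BF (V V_pos V_anti V_ratio recip_le mertens)
open Pool.Agent.H559.BS (Limit TT TT_le TT_ge TT_top log_TT V_TT log_pow_le log_top g g_pos)
open Pool.Agent.H559.HY (Arr evl rts rts_sub arr evl_arr Sg cnt RS box mem_box Cut OK Good cls cls_eq_iff)

namespace Pool.Agent.H559.SI

variable {k : ℕ}

/-- the forms `X + m + h i` -/
def sh (X : ℕ) (h : Fin k → ℕ) : Arr k 1 := fun i j => if j = 0 then ((X + h i : ℕ) : ℤ) else 1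

theorem evl_sh (X : ℕ) (h : Fin k → ℕ) (i : Fin k) (m : ℕ) : evl (sh X h i) m = ((X + m + h i : ℕ) : ℤ) := by
  unfold evl sh
  rw [Fin.sum_univ_two]
  simp
  ring

theorem sh_arr (h : Fin k → ℕ) : sh 0 h = arr 1 (fun i => (Polynomial.X + Polynomial.C ((h i : ℕ) : ℤ) : ℤ[X])) := by
  funext i j
  unfold sh arr
  fin_cases j
  · simp
  · simp [coeff_X]

theorem cls_sh (X : ℕ) (h : Fin k → ℕ) (i : Fin k) (p m : ℕ) (hp : 0 < p) : cls (sh X h) i p m = 0 ↔ p ∣ X + m + h i := by
  rw [cls_eq_iff _ _ _ _ _ hp hp, evl_sh, Nat.cast_zero, sub_zero]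
  exact Int.natCast_dvd_natCast

/-- the number of the classes does not depend on the shift -/
theorem rts_card_sh (X : ℕ) (h : Fin k → ℕ) (p : ℕ) (hp : 0 < p) :
    (rts (sh X h) p 0).card = (rts (sh 0 h) p 0).card := by
  have hmod : ∀ a c : ℕ, p ∣ a % p + c ↔ p ∣ a + c := by
    intro a c
    rw [Nat.dvd_iff_mod_eq_zero, Nat.dvd_iff_mod_eq_zero, Nat.mod_add_mod]
  refine card_nbij' (fun s => (s + X) % p) (fun s => (s + (p - X % p)) % p) ?_ ?_ ?_ ?_
  · intro s hs
    simp only [rts, coe_filter, mem_range, Set.mem_ofPred_eq] at hs ⊢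
    obtain ⟨h1, i, h2⟩ := hs
    refine ⟨Nat.mod_lt _ hp, i, ?_⟩
    rw [cls_sh _ _ _ _ _ hp] at h2 ⊢
    rw [zero_add, hmod]
    rwa [add_comm s X]
  · intro s hs
    simp only [rts, coe_filter, mem_range, Set.mem_ofPred_eq] at hs ⊢
    obtain ⟨h1, i, h2⟩ := hs
    refine ⟨Nat.mod_lt _ hp, i, ?_⟩
    rw [cls_sh _ _ _ _ _ hp] at h2 ⊢
    rw [zero_add] at h2
    have e : X + (s + (p - X % p)) % p + h i = (s + (p - X % p)) % p + (X + h i) := by ring
    rw [e, hmod]
    have h3 := Nat.mod_lt X hp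
    have h4 : s + (p - X % p) + (X + h i) = s + h i + p * (X / p + 1) := by
      have h5 := Nat.div_add_mod X p
      rw [Nat.mul_add, mul_one]
      omega
    rw [h4]
    exact (Nat.dvd_add_iff_left (Dvd.intro _ rfl)).1 h2
  · intro s hs
    simp only [rts, coe_filter, mem_range, Set.mem_ofPred_eq] at hs
    have h3 := Nat.mod_lt X hp
    have h5 := Nat.div_add_mod X p
    show ((s + X) % p + (p - X % p)) % p = s
    rw [Nat.mod_add_mod]
    have h4 : s + X + (p - X % p) = s + p * (X / p + 1) := by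
      rw [Nat.mul_add, mul_one]
      omega
    rw [h4, Nat.add_mul_mod_self_left, Nat.mod_eq_of_lt hs.1]
  · intro s hs
    simp only [rts, coe_filter, mem_range, Set.mem_ofPred_eq] at hs
    have h3 := Nat.mod_lt X hp
    have h5 := Nat.div_add_mod X p
    show ((s + (p - X % p)) % p + X) % p = s
    rw [Nat.mod_add_mod]
    have h4 : s + (p - X % p) + X = s + p * (X / p + 1) := by
      rw [Nat.mul_add, mul_one]
      omega
    rw [h4, Nat.add_mul_mod_self_left, Nat.mod_eq_of_lt hs.1]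

theorem Sg_sh (X : ℕ) (h : Fin k → ℕ) (w : ℕ) : Sg (sh X h) w = Sg (sh 0 h) w := by
  unfold Sg
  refine prod_congr rfl fun p hp => ?_
  rw [rts_card_sh X h p (mem_filter.1 hp).2.pos]

/-- the singular series of a tuple -/
theorem sg_tuple (h : Fin k → ℕ) (hh : Function.Injective h) :
    ∃ S : ℝ, Tendsto (fun w : ℕ => Sg (sh 0 h) w) atTop (𝓝 S) ∧
      ((∀ p : ℕ, p.Prime → (rts (sh 0 h) p 0).card < p) → 0 < S) := by
  rw [sh_arr h]
  refine Pool.Agent.H559.PV.sg_conv' 1 _ (fun i => ?_) (fun i => ?_) (fun i => ?_) (fun i j hij => ?_)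
  · exact (natDegree_X_add_C _).le
  · exact (monic_X_add_C _).irreducible_of_degree_eq_one (degree_X_add_C _)
  · rw [natDegree_X_add_C]
    exact one_pos
  · have h1 : h i ≠ h j := fun h2 => hij (hh h2)
    constructor
    · intro h2
      have h3 := congrArg (fun q : ℤ[X] => q.coeff 0) h2
      simp only [coeff_add, coeff_X_zero, coeff_C_zero, zero_add] at h3
      exact h1 (by exact_mod_cast h3)
    · intro h2
      have h3 := congrArg (fun q : ℤ[X] => q.coeff 1) h2
      simp [coeff_X] at h3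

/-- the bound of the shifts -/
def mxh (h : Fin k → ℕ) : ℕ := ∑ i, h i

theorem le_mxh (h : Fin k → ℕ) (i : Fin k) : h i ≤ mxh h :=
  single_le_sum (f := h) (fun _ _ => Nat.zero_le _) (mem_univ i)

theorem good_sh (X : ℕ) (h : Fin k → ℕ) (hh : Function.Injective h) (p : ℕ) (_hp : p.Prime) (hlt : mxh h < p) :
    Good (sh X h) p := by
  have h2 := _hp.two_le
  constructor
  · intro i
    refine ⟨1, by simp, ?_⟩
    unfold sh
    simp only [Fin.isValue, one_ne_zero, if_false]
    intro h3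
    have := Int.le_of_dvd one_pos h3
    omega
  · intro i i' hii
    refine ⟨0, ?_⟩
    unfold sh
    simp only [Fin.isValue, if_true]
    intro h3
    have h4 : h i ≠ h i' := fun h5 => hii (hh h5)
    have h5 := le_mxh h i
    have h6 := le_mxh h i'
    have h7 : ((X + h i : ℕ) : ℤ) - ((X + h i' : ℕ) : ℤ) ≠ 0 := by omega
    have h8 := Int.le_of_dvd (abs_pos.2 h7) ((dvd_abs _ _).2 h3)
    rcases abs_cases (((X + h i : ℕ) : ℤ) - ((X + h i' : ℕ) : ℤ)) with h9 | h9 <;> omega

theorem box_sh (X : ℕ) (h : Fin k → ℕ) (H : ℕ) (h1 : 1 ≤ H) (hX : X + mxh h ≤ H) : sh X h ∈ box k 1 H := by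
  rw [mem_box]
  intro i j
  unfold sh
  have := le_mxh h i
  split_ifs
  · rw [abs_of_nonneg (by positivity)]
    exact_mod_cast (by omega : X + h i ≤ H)
  · rw [abs_one]
    exact_mod_cast h1

/-- the count in words -/
theorem cnt_sh (X : ℕ) (h : Fin k → ℕ) (S : Set ℕ) (y : ℕ) :
    cnt (sh X h) S 0 y = {n : ℕ | X < n ∧ n ≤ X + y ∧ ∀ i, n + h i ∈ S}.ncard := by
  classical
  unfold cnt
  rw [← Set.ncard_coe_finset]
  refine Set.ncard_congr (fun m _ => X + m) ?_ ?_ ?_
  · intro m hm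
    simp only [coe_filter, mem_Ioc, Set.mem_ofPred_eq] at hm ⊢
    refine ⟨by omega, by omega, fun i => ?_⟩
    have := hm.2 i
    rw [evl_sh, Int.toNat_natCast] at this
    exact this
  · intro m n _ _ h3
    omega
  · intro n hn
    simp only [Set.mem_ofPred_eq] at hn
    refine ⟨n - X, ?_, by omega⟩
    simp only [coe_filter, mem_Ioc, Set.mem_ofPred_eq]
    refine ⟨by omega, fun i => ?_⟩
    rw [evl_sh, Int.toNat_natCast]
    have e : X + (n - X) + h i = n + h i := by omega
    rw [e]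
    exact hn.2.2 i

end Pool.Agent.H559.SI
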