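import Pool.Agent.H559.SI.Short

set_option autoImplicit false

/-! # The numbers of the elements of a set between the powers of its consecutive elements -/

open Finset Filter Topology
open Pool.Agent.H559.BS (log_top log_pow_le)

namespace Pool.Agent.H559.SI

/-- the number of the elements of `T` strictly between `p n ^ d` and `p (n + 1) ^ d` -/
noncomputable def NB (T : Set ℕ) (p : ℕ → ℕ) (d n : ℕ) : ℕ := {q : ℕ | p n ^ d < q ∧ q < p (n + 1) ^ d ∧ q ∈ T}.ncard

theorem bro (T : Set ℕ) (hT : ∀ (A : ℕ) (ε : ℝ), 1 ≤ A → 0 < ε → ∀ᶠ x : ℕ in atTop, ∀ X : ℕ, x ≤ X → X ≤ x ^ A →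
      |({q : ℕ | X < q ∧ q ≤ X + x ∧ q ∈ T}.ncard : ℝ) * Real.log X / x - 1| ≤ ε) (p : ℕ → ℕ) (hp : StrictMono p)
    (hg : Tendsto (fun n => (p (n + 1) : ℝ) / p n) atTop (𝓝 1)) (d : ℕ) (hd : 2 ≤ d) :
    Tendsto (fun n => (NB T p d n : ℝ) * Real.log (p n) / ((p n : ℝ) ^ (d - 1) * ((p (n + 1) : ℝ) - p n))) atTop (𝓝 1) := by
  have hpt : Tendsto p atTop atTop := hp.tendsto_atTop
  set x : ℕ → ℕ := fun n => p (n + 1) ^ d - p n ^ d with hx
  have hlt : ∀ n, p n < p (n + 1) := fun n => hp (Nat.lt_succ_self n)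
  have hle : ∀ n, p n ^ d ≤ p (n + 1) ^ d := fun n => Nat.pow_le_pow_left (hlt n).le d
  have hx1 : ∀ n, p n ^ (d - 1) ≤ x n := by
    intro n
    have h1 : p n ^ d + p n ^ (d - 1) ≤ p (n + 1) ^ d := by
      have e : d = (d - 1) + 1 := by omega
      calc p n ^ d + p n ^ (d - 1) = p n ^ (d - 1) * (p n + 1) := by rw [Nat.mul_succ, ← pow_succ, ← e]
        _ ≤ p (n + 1) ^ (d - 1) * p (n + 1) := Nat.mul_le_mul (Nat.pow_le_pow_left (hlt n).le _) (hlt n)
        _ = p (n + 1) ^ d := by rw [← pow_succ, ← e]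
    rw [hx]
    dsimp only
    omega
  have hxt : Tendsto x atTop atTop := by
    refine tendsto_atTop_mono (fun n => ?_) hpt
    exact (Nat.le_self_pow (by omega : d - 1 ≠ 0) (p n)).trans (hx1 n)
  have hr := hg.pow d
  rw [one_pow] at hr
  have hxX : ∀ᶠ n in atTop, x n ≤ p n ^ d := by
    filter_upwards [hr.eventually_lt_const (show (1 : ℝ) < 2 by norm_num), hpt.eventually_ge_atTop 1] with n h1 h2
    have hp0 : (0 : ℝ) < p n := by exact_mod_cast h2
    rw [div_pow, div_lt_iff₀ (by positivity)] at h1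
    have h3 : p (n + 1) ^ d ≤ 2 * p n ^ d := by exact_mod_cast h1.le
    rw [hx]
    dsimp only
    omega
  have hXx : ∀ᶠ n in atTop, p n ^ d ≤ x n ^ 2 := by
    filter_upwards [hpt.eventually_ge_atTop 1] with n h2
    calc p n ^ d ≤ p n ^ ((d - 1) * 2) := Nat.pow_le_pow_right h2 (by omega)
      _ = (p n ^ (d - 1)) ^ 2 := pow_mul _ _ _
      _ ≤ x n ^ 2 := Nat.pow_le_pow_left (hx1 n) 2
  -- the law
  have hlaw : Tendsto (fun n => ({q : ℕ | p n ^ d < q ∧ q ≤ p n ^ d + x n ∧ q ∈ T}.ncard : ℝ) *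
      Real.log ((p n ^ d : ℕ) : ℝ) / x n) atTop (𝓝 1) := by
    rw [Metric.tendsto_nhds]
    intro ε hε
    filter_upwards [hxt.eventually (hT 2 (ε / 2) (by norm_num) (by linarith)), hxX, hXx] with n h1 h2 h3
    rw [Real.dist_eq]
    exact lt_of_le_of_lt (h1 (p n ^ d) h2 h3) (by linarith)
  -- the end point
  have hxe : ∀ n, p n ^ d + x n = p (n + 1) ^ d := fun n => by
    rw [hx]
    dsimp only
    have := hle n
    omega
  have hN1 : ∀ n, NB T p d n ≤ {q : ℕ | p n ^ d < q ∧ q ≤ p n ^ d + x n ∧ q ∈ T}.ncard := by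
    intro n
    unfold NB
    refine Set.ncard_le_ncard ?_ ?_
    · rintro q ⟨h1, h2, h3⟩
      exact ⟨h1, by rw [hxe]; omega, h3⟩
    · exact (Set.finite_Iic (p n ^ d + x n)).subset fun q hq => hq.2.1
  have hN2 : ∀ n, {q : ℕ | p n ^ d < q ∧ q ≤ p n ^ d + x n ∧ q ∈ T}.ncard ≤ NB T p d n + 1 := by
    intro n
    unfold NB
    refine le_trans (Set.ncard_le_ncard (t := insert (p (n + 1) ^ d) {q : ℕ | p n ^ d < q ∧ q < p (n + 1) ^ d ∧ q ∈ T}) ?_ ?_)
      (Set.ncard_insert_le _ _)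
    · rintro q ⟨h1, h2, h3⟩
      rw [hxe] at h2
      rcases h2.lt_or_eq with h4 | h4
      · exact Set.mem_insert_of_mem _ ⟨h1, h4, h3⟩
      · rw [h4]
        exact Set.mem_insert _ _
    · refine Set.Finite.insert _ ((Set.finite_Iic (p (n + 1) ^ d)).subset fun q hq => hq.2.1.le)
  have hsm : Tendsto (fun n => Real.log ((p n ^ d : ℕ) : ℝ) / x n) atTop (𝓝 0) := by
    have h1 : Tendsto (fun n : ℕ => Real.log (n : ℝ) / n) atTop (𝓝 0) := by
      have h2 := Real.isLittleO_log_id_atTop.tendsto_div_nhds_zero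
      exact h2.comp tendsto_natCast_atTop_atTop
    have h2 := (h1.comp hxt).const_mul 2
    rw [mul_zero] at h2
    refine squeeze_zero' (Eventually.of_forall fun n => ?_) ?_ h2
    · have := Real.log_natCast_nonneg (p n ^ d)
      positivity
    · filter_upwards [hXx, hpt.eventually_ge_atTop 1, hxt.eventually_ge_atTop 1] with n h3 h4 h5
      have h6 : Real.log ((p n ^ d : ℕ) : ℝ) ≤ 2 * Real.log (x n) := by
        have h7 : (0 : ℝ) < ((p n ^ d : ℕ) : ℝ) := by exact_mod_cast Nat.pow_pos h4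
        have h8 : (2 : ℝ) * Real.log (x n) = Real.log (((x n ^ 2 : ℕ)) : ℝ) := by
          push_cast
          rw [Real.log_pow]
          norm_num
        rw [h8]
        exact Real.log_le_log h7 (by exact_mod_cast h3)
      have h7 : (0 : ℝ) < x n := by exact_mod_cast h5
      simp only [Function.comp_apply]
      rw [← mul_div_assoc]
      exact div_le_div_of_nonneg_right h6 h7.le
  have hNlaw : Tendsto (fun n => (NB T p d n : ℝ) * Real.log ((p n ^ d : ℕ) : ℝ) / x n) atTop (𝓝 1) := by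
    have h1 := hlaw.sub hsm
    rw [sub_zero] at h1
    refine tendsto_of_tendsto_of_tendsto_of_le_of_le' h1 hlaw (Eventually.of_forall fun n => ?_)
      (Eventually.of_forall fun n => ?_)
    · have h2 : (({q : ℕ | p n ^ d < q ∧ q ≤ p n ^ d + x n ∧ q ∈ T}.ncard : ℕ) : ℝ) ≤ NB T p d n + 1 := by
        exact_mod_cast hN2 n
      have h3 := Real.log_natCast_nonneg (p n ^ d)
      rw [← sub_div]
      refine div_le_div_of_nonneg_right ?_ (Nat.cast_nonneg _)
      nlinarith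
    · have h2 : (NB T p d n : ℝ) ≤ (({q : ℕ | p n ^ d < q ∧ q ≤ p n ^ d + x n ∧ q ∈ T}.ncard : ℕ) : ℝ) := by
        exact_mod_cast hN1 n
      refine div_le_div_of_nonneg_right ?_ (Nat.cast_nonneg _)
      exact mul_le_mul_of_nonneg_right h2 (Real.log_natCast_nonneg _)
  -- the ratio
  have hrat : Tendsto (fun n => ∑ i ∈ range d, ((p (n + 1) : ℝ) / p n) ^ i) atTop (𝓝 (d : ℝ)) := by
    have h1 : Tendsto (fun n => ∑ i ∈ range d, ((p (n + 1) : ℝ) / p n) ^ i) atTop (𝓝 (∑ i ∈ range d, (1 : ℝ) ^ i)) :=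
      tendsto_finsetSum _ fun i _ => hg.pow i
    simpa using h1
  have hd0 : (0 : ℝ) < d := by exact_mod_cast (by omega : 0 < d)
  have h9 := (hNlaw.mul hrat).div_const (d : ℝ)
  rw [one_mul, div_self hd0.ne'] at h9
  refine h9.congr' ?_
  filter_upwards [hpt.eventually_ge_atTop 1] with n h2
  have hp0 : (0 : ℝ) < p n := by exact_mod_cast h2
  have hgap : (0 : ℝ) < (p (n + 1) : ℝ) - p n := by
    have : (p n : ℝ) < p (n + 1) := by exact_mod_cast hlt n
    linarith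
  have hxr : (x n : ℝ) = (∑ i ∈ range d, ((p (n + 1) : ℝ) / p n) ^ i) * ((p n : ℝ) ^ (d - 1) * ((p (n + 1) : ℝ) - p n)) := by
    have h3 : (x n : ℝ) = (p (n + 1) : ℝ) ^ d - (p n : ℝ) ^ d := by
      rw [hx]
      dsimp only
      rw [Nat.cast_sub (hle n)]
      push_cast
      ring
    have h4 : ∑ i ∈ range d, (p (n + 1) : ℝ) ^ i * (p n : ℝ) ^ (d - 1 - i) =
        (∑ i ∈ range d, ((p (n + 1) : ℝ) / p n) ^ i) * (p n : ℝ) ^ (d - 1) := by
      rw [sum_mul]
      refine sum_congr rfl fun i hi => ?_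
      rw [mem_range] at hi
      have e : d - 1 = i + (d - 1 - i) := by omega
      rw [div_pow, div_mul_eq_mul_div, eq_div_iff (by positivity)]
      calc (p (n + 1) : ℝ) ^ i * (p n : ℝ) ^ (d - 1 - i) * (p n : ℝ) ^ i =
          (p (n + 1) : ℝ) ^ i * ((p n : ℝ) ^ i * (p n : ℝ) ^ (d - 1 - i)) := by ring
        _ = (p (n + 1) : ℝ) ^ i * (p n : ℝ) ^ (d - 1) := by rw [← pow_add, ← e]
    rw [h3, ← geom_sum₂_mul, h4, mul_assoc]
  have hxn : (0 : ℝ) < x n := by
    have h4 : 0 < x n := lt_of_lt_of_le (Nat.pow_pos h2) (hx1 n)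
    exact_mod_cast h4
  have hs0 : (∑ i ∈ range d, ((p (n + 1) : ℝ) / p n) ^ i) ≠ 0 := by
    intro h5
    rw [h5, zero_mul] at hxr
    linarith
  rw [hxr]
  push_cast
  rw [Real.log_pow]
  field_simp

end Pool.Agent.H559.SI
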