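import Pool.Agent.H559.SI.Cons

set_option autoImplicit false

/-! # The numbers of the random primes between the powers of consecutive random primes -/

open Finset Filter Topology Polynomial
open Pool.Agent.T2H32.BF (V V_pos V_anti V_ratio recip_le mertens)
open Pool.Agent.H559.BS (Limit TT TT_le TT_ge TT_top log_TT V_TT log_pow_le log_top g g_pos)
open Pool.Agent.H559.HY (Arr evl rts rts_sub arr evl_arr Sg cnt RS box mem_box Cut OK Good cls cls_eq_iff Sg_nonneg CF)

namespace Pool.Agent.H559.SI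

/-- the abstract statement -/
theorem final (T : Set ℕ) (hinf : T.Infinite)
    (hlaw : ∀ (A : ℕ) (ε : ℝ), 1 ≤ A → 0 < ε → ∀ᶠ x : ℕ in atTop, ∀ X : ℕ, x ≤ X → X ≤ x ^ A →
      |({q : ℕ | X < q ∧ q ≤ X + x ∧ q ∈ T}.ncard : ℝ) * Real.log X / x - 1| ≤ ε)
    (hodd : ∀ᶠ v : ℕ in atTop, v ∈ T → v % 2 = 1) (htw : ∀ N : ℕ, ∃ n, N < n ∧ n ∈ T ∧ n + 2 ∈ T)
    (hwin : ∀ t : ℝ, 2 < t → ∀ᶠ n : ℕ in atTop, ∃ m : ℕ, n < m ∧ (m : ℝ) ≤ n + Real.log n ^ t ∧ m ∈ T)
    (hbig : ∀ lam : ℝ, lam < 1 → ∀ᶠ X : ℕ in atTop, ∃ m m' : ℕ, m < m' ∧ m ≤ X ∧ m ∈ T ∧ m' ∈ T ∧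
      (∀ u, m < u → u < m' → u ∉ T) ∧ lam * Real.log X * Real.log X ≤ (m' : ℝ) - m) (d : ℕ) (hd : 2 ≤ d) :
    Tendsto (fun n => (NB T (el T) d n : ℝ) * Real.log (el T n) /
      ((el T n : ℝ) ^ (d - 1) * ((el T (n + 1) : ℝ) - el T n))) atTop (𝓝 1) ∧
    (∀ ε : ℝ, 0 < ε → (∀ᶠ n in atTop, (2 - ε) * ((el T n : ℝ) ^ (d - 1) / Real.log (el T n)) ≤ NB T (el T) d n) ∧
      ∃ᶠ n in atTop, (NB T (el T) d n : ℝ) ≤ (2 + ε) * ((el T n : ℝ) ^ (d - 1) / Real.log (el T n))) ∧
    (∀ t : ℝ, 1 < t → ∀ᶠ n in atTop, (NB T (el T) d n : ℝ) ≤ (el T n : ℝ) ^ (d - 1) * Real.log (el T n) ^ t) ∧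
    ∀ lam : ℝ, lam < 1 → ∃ᶠ n in atTop, lam * ((el T n : ℝ) ^ (d - 1) * Real.log (el T n)) ≤ NB T (el T) d n := by
  set p := el T with hp
  have hmono : StrictMono p := el_mono T hinf
  have hpt : Tendsto p atTop atTop := hmono.tendsto_atTop
  have hlt : ∀ n, p n < p (n + 1) := fun n => hmono (Nat.lt_succ_self n)
  have hlog : Tendsto (fun n => Real.log (p n)) atTop atTop := log_top.comp hpt
  have hgap : ∀ t : ℝ, 2 < t → ∀ᶠ n in atTop, (p (n + 1) : ℝ) ≤ p n + Real.log (p n) ^ t := by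
    intro t ht
    filter_upwards [hpt.eventually (hwin t ht)] with n hn
    obtain ⟨m, h1, h2, h3⟩ := hn
    have h4 := el_le T hinf n m h3 h1
    have h5 : (p (n + 1) : ℝ) ≤ m := by exact_mod_cast h4
    linarith
  have hg1 : Tendsto (fun n => (p (n + 1) : ℝ) / p n) atTop (𝓝 1) := by
    have h1 : Tendsto (fun n : ℕ => 1 + Real.log n ^ (3 : ℝ) / (n : ℝ)) atTop (𝓝 (1 + 0)) := by
      refine tendsto_const_nhds.add ?_
      have h2 := (isLittleO_log_rpow_rpow_atTop (s := 1) (3 : ℝ) (by norm_num)).tendsto_div_nhds_zero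
      simp only [Real.rpow_one] at h2
      exact h2.comp tendsto_natCast_atTop_atTop
    rw [add_zero] at h1
    refine tendsto_of_tendsto_of_tendsto_of_le_of_le' tendsto_const_nhds (h1.comp hpt) ?_ ?_
    · filter_upwards [hpt.eventually_ge_atTop 1] with n h2
      have h3 : (0 : ℝ) < p n := by exact_mod_cast h2
      rw [le_div_iff₀ h3, one_mul]
      exact_mod_cast (hlt n).le
    · filter_upwards [hgap 3 (by norm_num), hpt.eventually_ge_atTop 1] with n h1 h2
      have h3 : (0 : ℝ) < p n := by exact_mod_cast h2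
      simp only [Function.comp_apply]
      rw [div_le_iff₀ h3, add_mul, div_mul_cancel₀ _ h3.ne', one_mul]
      exact h1
  have hmain := bro T hlaw p hmono hg1 d hd
  have hgpos : ∀ n, (0 : ℝ) < (p (n + 1) : ℝ) - p n := fun n => by
    have : (p n : ℝ) < p (n + 1) := by exact_mod_cast hlt n
    linarith
  -- the two bounds with a constant
  have hup : ∀ c : ℝ, 1 < c → ∀ᶠ n in atTop, (NB T p d n : ℝ) ≤ c * ((p (n + 1) : ℝ) - p n) * ((p n : ℝ) ^ (d - 1) / Real.log (p n)) := by
    intro c hc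
    filter_upwards [hmain.eventually_lt_const hc, hlog.eventually_ge_atTop 1, hpt.eventually_ge_atTop 1] with n h1 h2 h3
    have h4 : (0 : ℝ) < p n := by exact_mod_cast h3
    have h5 := hgpos n
    have h6 : (0 : ℝ) < Real.log (p n) := by linarith
    rw [div_lt_iff₀ (by positivity)] at h1
    rw [← mul_div_assoc, le_div_iff₀ h6]
    nlinarith
  have hdn : ∀ c : ℝ, c < 1 → ∀ᶠ n in atTop, c * ((p (n + 1) : ℝ) - p n) * ((p n : ℝ) ^ (d - 1) / Real.log (p n)) ≤ (NB T p d n : ℝ) := by
    intro c hc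
    filter_upwards [hmain.eventually_const_lt hc, hlog.eventually_ge_atTop 1, hpt.eventually_ge_atTop 1] with n h1 h2 h3
    have h4 : (0 : ℝ) < p n := by exact_mod_cast h3
    have h5 := hgpos n
    have h6 : (0 : ℝ) < Real.log (p n) := by linarith
    rw [lt_div_iff₀ (by positivity)] at h1
    rw [← mul_div_assoc, div_le_iff₀ h6]
    nlinarith
  refine ⟨hmain, fun ε hε => ⟨?_, ?_⟩, fun t ht => ?_, fun lam hlam => ?_⟩
  · filter_upwards [hdn (1 - ε / 2) (by linarith), hpt.eventually hodd,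
      (hpt.comp (tendsto_add_atTop_nat 1)).eventually hodd, hlog.eventually_ge_atTop 1,
      hdn (1 / 2) (by norm_num)] with n h1 h2 h3 h4 h5
    have h6 := h2 (el_mem T hinf n)
    have h7 : p (n + 1) % 2 = 1 := h3 (el_mem T hinf (n + 1))
    have h8 := hlt n
    have h9 : (2 : ℝ) ≤ (p (n + 1) : ℝ) - p n := by
      have : p n + 2 ≤ p (n + 1) := by omega
      have : ((p n + 2 : ℕ) : ℝ) ≤ p (n + 1) := by exact_mod_cast this
      push_cast at this
      linarith
    have h10 : 0 ≤ (p n : ℝ) ^ (d - 1) / Real.log (p n) := div_nonneg (by positivity) (by linarith)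
    rcases le_or_gt 0 (1 - ε / 2) with h11 | h11
    · refine le_trans (mul_le_mul_of_nonneg_right ?_ h10) h1
      nlinarith
    · refine le_trans (mul_nonpos_of_nonpos_of_nonneg (by linarith) h10) (Nat.cast_nonneg _)
  · rw [frequently_atTop]
    intro a
    obtain ⟨b1, hb1⟩ := eventually_atTop.1 ((hup (1 + ε / 2) (by linarith)).and (hlog.eventually_ge_atTop 1))
    obtain ⟨b2, hb2⟩ := eventually_atTop.1 hodd
    obtain ⟨m, h1, h2, h3⟩ := htw (max (p (max a b1)) b2)
    have h4 : ∀ u, m < u → u < m + 2 → u ∉ T := by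
      intro u h5 h6 h7
      have h8 := hb2 u (by have := le_max_right (p (max a b1)) b2; omega) h7
      have h9 := hb2 m (by have := le_max_right (p (max a b1)) b2; omega) h2
      omega
    obtain ⟨n, h5, h6⟩ := el_succ T hinf m (m + 2) h2 h3 (by omega) h4
    have h7 : max a b1 < n := by
      rw [← hmono.lt_iff_lt]
      have := le_max_left (p (max a b1)) b2
      rw [hp, h5, ← hp]
      omega
    refine ⟨n, (le_max_left a b1).trans h7.le, ?_⟩
    obtain ⟨h8, h9⟩ := hb1 n ((le_max_right a b1).trans h7.le)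
    refine h8.trans (le_of_eq ?_)
    have h10 : (p (n + 1) : ℝ) - p n = 2 := by
      rw [hp, h5, h6]
      push_cast
      ring
    rw [h10]
    ring
  · filter_upwards [hup 2 (by norm_num), hgap (1 + (1 + t) / 2) (by linarith), hlog.eventually_ge_atTop 1,
      ((tendsto_rpow_atTop (by linarith : 0 < (t - 1) / 2)).comp hlog).eventually_ge_atTop 2,
      hpt.eventually_ge_atTop 1] with n h1 h2 h3 h4 h5
    refine h1.trans ?_
    have h6 : (0 : ℝ) < Real.log (p n) := by linarith
    simp only [Function.comp_apply] at h4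
    have h7 : (2 : ℝ) * ((p (n + 1) : ℝ) - p n) ≤ Real.log (p n) * Real.log (p n) ^ t := by
      have e : Real.log (p n) * Real.log (p n) ^ t = Real.log (p n) ^ ((t - 1) / 2) * Real.log (p n) ^ (1 + (1 + t) / 2) := by
        rw [← Real.rpow_add h6]
        nth_rewrite 1 [← Real.rpow_one (Real.log (p n))]
        rw [← Real.rpow_add h6]
        congr 1
        ring
      rw [e]
      exact mul_le_mul h4 (by linarith) (hgpos n).le (by positivity)
    calc 2 * ((p (n + 1) : ℝ) - p n) * ((p n : ℝ) ^ (d - 1) / Real.log (p n)) ≤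
        Real.log (p n) * Real.log (p n) ^ t * ((p n : ℝ) ^ (d - 1) / Real.log (p n)) :=
          mul_le_mul_of_nonneg_right h7 (by positivity)
      _ = (p n : ℝ) ^ (d - 1) * Real.log (p n) ^ t := by field_simp
  · rw [frequently_atTop]
    intro a
    set l := max ((1 + lam) / 2) (1 / 2) with hl
    have hl1 : l < 1 := max_lt (by linarith) (by norm_num)
    have hl0 : 0 < l := lt_of_lt_of_le (by norm_num) (le_max_right _ _)
    have hll : lam < l := lt_of_lt_of_le (by linarith) (le_max_left _ _)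
    set c := max (lam / l) 0 with hc
    have hc1 : c < 1 := max_lt (by rw [div_lt_one hl0]; exact hll) one_pos
    have hc0 : 0 ≤ c := le_max_right _ _
    have hcl : lam ≤ c * l := by
      have h1 := le_max_left (lam / l) 0
      rw [div_le_iff₀ hl0] at h1
      exact h1
    obtain ⟨b1, hb1⟩ := eventually_atTop.1 ((hdn c hc1).and (hlog.eventually_ge_atTop 1))
    -- the gaps below a fixed point are bounded
    obtain ⟨X, hX1, hX2⟩ := ((hbig l hl1).and ((log_top.eventually_ge_atTop
      (((p (max a b1 + 1) : ℝ) + 1) / l + 1)).and (eventually_ge_atTop 3))).exists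
    obtain ⟨m, m', h1, h2, h3, h4, h5, h6⟩ := hX1
    obtain ⟨hX2, hX3⟩ := hX2
    obtain ⟨n, h7, h8⟩ := el_succ T hinf m m' h3 h4 h1 h5
    have hq0 : (0 : ℝ) ≤ p (max a b1 + 1) := Nat.cast_nonneg _
    have hL1 : (1 : ℝ) ≤ Real.log X := by
      refine le_trans ?_ hX2
      have : 0 ≤ ((p (max a b1 + 1) : ℝ) + 1) / l := by positivity
      linarith
    have h9 : max a b1 < n := by
      by_contra hcon
      push Not at hcon
      have h10 : m' ≤ p (max a b1 + 1) := by
        rw [← h8]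
        exact hmono.monotone (by omega)
      have h11 : (m' : ℝ) ≤ p (max a b1 + 1) := by exact_mod_cast h10
      have h12 : (p (max a b1 + 1) : ℝ) + 1 ≤ l * Real.log X := by
        have h13 : ((p (max a b1 + 1) : ℝ) + 1) / l ≤ Real.log X := by linarith
        rw [div_le_iff₀ hl0] at h13
        linarith
      have h13 : l * Real.log X ≤ l * Real.log X * Real.log X := by nlinarith
      have h14 : (0 : ℝ) ≤ m := Nat.cast_nonneg _
      linarith
    refine ⟨n, (le_max_left a b1).trans h9.le, ?_⟩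
    obtain ⟨h10, h11⟩ := hb1 n ((le_max_right a b1).trans h9.le)
    refine le_trans ?_ h10
    have e1 : p n = m := h7
    have e2 : p (n + 1) = m' := h8
    have hm1 : 1 ≤ m := by
      by_contra h12
      have : m = 0 := by omega
      rw [e1, this] at h11
      norm_num at h11
    have h12 : Real.log (p n) ≤ Real.log X := by
      rw [e1]
      exact Real.log_le_log (by exact_mod_cast hm1) (by exact_mod_cast h2)
    have h13 : l * Real.log (p n) * Real.log (p n) ≤ (p (n + 1) : ℝ) - p n := by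
      rw [e2, show (p n : ℝ) = (m : ℝ) by rw [e1]]
      rw [show (p n : ℝ) = (m : ℝ) by rw [e1]] at h12 h11
      refine le_trans ?_ h6
      have h14 : Real.log m * Real.log m ≤ Real.log X * Real.log X := mul_self_le_mul_self (by linarith) h12
      nlinarith
    have h14 : (0 : ℝ) < Real.log (p n) := by linarith
    have h15 : 0 ≤ (p n : ℝ) ^ (d - 1) / Real.log (p n) := by positivity
    calc lam * ((p n : ℝ) ^ (d - 1) * Real.log (p n)) ≤ c * l * ((p n : ℝ) ^ (d - 1) * Real.log (p n)) :=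
          mul_le_mul_of_nonneg_right hcl (by positivity)
      _ = c * (l * Real.log (p n) * Real.log (p n)) * ((p n : ℝ) ^ (d - 1) / Real.log (p n)) := by field_simp
      _ ≤ c * ((p (n + 1) : ℝ) - p n) * ((p n : ℝ) ^ (d - 1) / Real.log (p n)) :=
          mul_le_mul_of_nonneg_right (mul_le_mul_of_nonneg_left h13 hc0) h15

end Pool.Agent.H559.SI
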