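import Pool.Agent.H559.SI.Base
import Pool.Agent.H559.HY.Gold2

set_option autoImplicit false

/-! # Goldbach's problem with a summand in a window -/

open Finset Filter Topology
open Pool.Agent.T2H32.BF (V V_pos V_anti V_ratio recip_le mertens)
open Pool.Agent.H559.BS (Limit TT TT_le TT_ge TT_top log_TT V_TT log_pow_le log_top g g_pos)
open Pool.Agent.H559.HY

namespace Pool.Agent.H559.SI

/-- the forms `u + m`, `N - u - m` -/
def Gs (N u : ℕ) : Arr 2 1 := ![![(u : ℤ), 1], ![(N : ℤ) - u, -1]]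

theorem evl_Gs0 (N u m : ℕ) : evl (Gs N u 0) m = u + m := by
  unfold evl Gs
  rw [Fin.sum_univ_two]
  simp

theorem evl_Gs1 (N u m : ℕ) : evl (Gs N u 1) m = N - u - m := by
  unfold evl Gs
  rw [Fin.sum_univ_two]
  simp
  ring

theorem good_Gs (N u p : ℕ) (_hp : p.Prime) (h2 : 2 < p) : Good (Gs N u) p := by
  have h1 : ¬ (p : ℤ) ∣ 1 := by
    intro h
    have := Int.le_of_dvd one_pos h
    omega
  have h3 : ¬ (p : ℤ) ∣ 2 := by
    intro h
    have := Int.le_of_dvd two_pos h
    omega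
  constructor
  · intro i
    refine ⟨1, by simp, ?_⟩
    fin_cases i
    · simpa [Gs] using h1
    · simpa [Gs] using h1
  · intro i i' hii
    refine ⟨1, ?_⟩
    fin_cases i <;> fin_cases i'
    · exact absurd rfl hii
    · simpa [Gs] using h3
    · intro h
      have h4 : (Gs N u 1 1 - Gs N u 0 1 : ℤ) = -2 := by simp [Gs]
      have h5 : (p : ℤ) ∣ -2 := by
        rw [← h4]
        exact h
      exact h3 ((dvd_neg).1 h5)
    · exact absurd rfl hii

theorem cls_Gs0 (N u p s : ℕ) (hp : 0 < p) : cls (Gs N u) 0 p s = 0 ↔ p ∣ u + s := by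
  rw [cls_eq_iff _ _ _ _ _ hp hp, evl_Gs0, Nat.cast_zero, sub_zero]
  have e : (u : ℤ) + s = ((u + s : ℕ) : ℤ) := by push_cast; ring
  rw [e]
  exact Int.natCast_dvd_natCast

theorem cls_Gs1 (N u p s : ℕ) (hp : 0 < p) : cls (Gs N u) 1 p s = 0 ↔ u + s ≡ N [MOD p] := by
  rw [cls_eq_iff _ _ _ _ _ hp hp, evl_Gs1, Nat.cast_zero, sub_zero]
  have e : (N : ℤ) - u - s = (N : ℤ) - ((u + s : ℕ) : ℤ) := by push_cast; ring
  rw [e, ← Int.natCast_modEq_iff]
  constructor
  · intro h
    exact (Int.modEq_iff_dvd.2 h)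
  · intro h
    exact Int.modEq_iff_dvd.1 h

theorem rts_Gs (N u p : ℕ) (hp : p.Prime) : (rts (Gs N u) p 0).card = if p ∣ N then 1 else 2 := by
  have hp0 := hp.pos
  have h3 := Nat.mod_lt u hp0
  have h5 := Nat.div_add_mod u p
  have e : rts (Gs N u) p 0 = {(p - u % p) % p, (N + (p - u % p)) % p} := by
    ext s
    unfold rts
    rw [mem_filter, mem_range, mem_insert, mem_singleton]
    have h4 : ∀ s : ℕ, s < p → ∀ c : ℕ, (u + s ≡ c [MOD p] ↔ s = (c + (p - u % p)) % p) := by
      intro s hs c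
      constructor
      · intro h
        have h6 : (u + s) + (p - u % p) ≡ c + (p - u % p) [MOD p] := Nat.ModEq.add_right _ h
        have h7 : u + s + (p - u % p) = s + p * (u / p + 1) := by
          rw [Nat.mul_add, mul_one]
          omega
        rw [h7] at h6
        unfold Nat.ModEq at h6
        rw [Nat.add_mul_mod_self_left, Nat.mod_eq_of_lt hs] at h6
        exact h6
      · intro h
        rw [h]
        unfold Nat.ModEq
        rw [Nat.add_mod_mod]
        have h7 : u + (c + (p - u % p)) = c + p * (u / p + 1) := by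
          rw [Nat.mul_add, mul_one]
          omega
        rw [h7, Nat.add_mul_mod_self_left]
    have h8 : ∀ s : ℕ, p ∣ u + s ↔ u + s ≡ 0 [MOD p] := fun s => (Nat.modEq_zero_iff_dvd).symm
    constructor
    · rintro ⟨h1, i, h2⟩
      fin_cases i
      · left
        have h9 := (cls_Gs0 N u p s hp0).1 h2
        rw [h8, h4 s h1, zero_add] at h9
        exact h9
      · right
        have h9 := (cls_Gs1 N u p s hp0).1 h2
        rwa [h4 s h1] at h9
    · rintro (h | h)
      · have h1 : s < p := by rw [h]; exact Nat.mod_lt _ hp0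
        refine ⟨h1, 0, (cls_Gs0 N u p s hp0).2 ?_⟩
        rw [h8, h4 s h1, zero_add]
        exact h
      · have h1 : s < p := by rw [h]; exact Nat.mod_lt _ hp0
        refine ⟨h1, 1, (cls_Gs1 N u p s hp0).2 ?_⟩
        rw [h4 s h1]
        exact h
  rw [e]
  split_ifs with h
  · obtain ⟨c, hc⟩ := h
    rw [hc, Nat.mul_add_mod]
    simp
  · rw [card_pair]
    intro h2
    apply h
    have h6 : 0 + (p - u % p) ≡ N + (p - u % p) [MOD p] := by
      rw [zero_add]
      exact h2
    have h7 : 0 ≡ N [MOD p] := Nat.ModEq.add_right_cancel' _ h6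
    exact (Nat.modEq_zero_iff_dvd).1 h7.symm

theorem Sg_Gs (N u w : ℕ) : Sg (Gs N u) w = Sg (Gn N) w := by
  unfold Sg
  refine prod_congr rfl fun p hp => ?_
  rw [rts_Gs N u p (mem_filter.1 hp).2, rts_G N p (mem_filter.1 hp).2]

theorem box_Gs (N u H : ℕ) (hu : u ≤ N) (hH : N ≤ H) (h1 : 1 ≤ H) : Gs N u ∈ box 2 1 H := by
  rw [mem_box]
  have hH' : (N : ℤ) ≤ H := by exact_mod_cast hH
  have hu' : (u : ℤ) ≤ N := by exact_mod_cast hu
  have h1' : (1 : ℤ) ≤ H := by exact_mod_cast h1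
  have hu0 : (0 : ℤ) ≤ u := Int.natCast_nonneg _
  intro i j
  fin_cases i <;> fin_cases j
  · change |(u : ℤ)| ≤ H
    rw [abs_le]
    constructor <;> linarith
  · change |(1 : ℤ)| ≤ H
    rw [abs_one]
    exact h1'
  · change |(N : ℤ) - u| ≤ H
    rw [abs_le]
    constructor <;> linarith
  · change |(-1 : ℤ)| ≤ H
    rw [abs_neg, abs_one]
    exact h1'

/-- the number of the representations `N = p + q` with `u < p ≤ u + y` -/
noncomputable def gw (T : Set ℕ) (N u y : ℕ) : ℕ := {p : ℕ | u < p ∧ p ≤ u + y ∧ p ∈ T ∧ ∃ q ∈ T, p + q = N}.ncard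

theorem gw_eq (T : Set ℕ) (h0 : 0 ∉ T) (N u y : ℕ) : cnt (Gs N u) T 0 y = gw T N u y := by
  classical
  unfold cnt gw
  rw [← Set.ncard_coe_finset]
  refine Set.ncard_congr (fun m _ => u + m) ?_ ?_ ?_
  · intro m hm
    simp only [coe_filter, mem_Ioc, Set.mem_ofPred_eq] at hm ⊢
    obtain ⟨h1, h2⟩ := hm
    have h3 := h2 0
    have h4 := h2 1
    rw [evl_Gs0] at h3
    rw [evl_Gs1] at h4
    have e : (u : ℤ) + m = ((u + m : ℕ) : ℤ) := by push_cast; ring
    rw [e, Int.toNat_natCast] at h3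
    refine ⟨by omega, by omega, h3, ((N : ℤ) - u - m).toNat, h4, ?_⟩
    have h5 : ((N : ℤ) - u - m).toNat ≠ 0 := fun h6 => h0 (h6 ▸ h4)
    omega
  · intro m n _ _ h3
    omega
  · intro p hp
    simp only [Set.mem_ofPred_eq] at hp
    obtain ⟨h1, h2, h3, q, h4, h5⟩ := hp
    refine ⟨p - u, ?_, by omega⟩
    simp only [coe_filter, mem_Ioc, Set.mem_ofPred_eq]
    refine ⟨by omega, fun i => ?_⟩
    fin_cases i
    · change (evl (Gs N u 0) (p - u : ℕ)).toNat ∈ T
      rw [evl_Gs0]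
      have e : ((u : ℤ) + ((p - u : ℕ) : ℤ)).toNat = p := by omega
      rw [e]
      exact h3
    · change (evl (Gs N u 1) (p - u : ℕ)).toNat ∈ T
      rw [evl_Gs1]
      have e : ((N : ℤ) - u - ((p - u : ℕ) : ℤ)).toNat = q := by omega
      rw [e]
      exact h4

end Pool.Agent.H559.SI
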