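import Pool.Agent.H559.SI.GWF

set_option autoImplicit false

/-! # Goldbach's problem in the primorial intervals -/

open Finset Filter Topology
open Pool.Agent.T2H32.BF (V V_pos V_anti V_ratio recip_le mertens)
open Pool.Agent.H559.BS (Limit TT TT_le TT_ge TT_top log_TT V_TT log_pow_le log_top g g_pos)
open Pool.Agent.H559.HY
open Pool.Agent.T2H32.GB (C2 C2_succ C2_pos C2_anti C2_ge)

namespace Pool.Agent.H559.SI

/-- the number of the representations of the problem -/
noncomputable def gp (T : Set ℕ) (k m : ℕ) : ℕ :=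
  {p : ℕ | pr k + 1 ≤ p ∧ p ≤ pr (k + 1) + 1 ∧ p ∈ T ∧ ∃ q ∈ T, p + q = m ∧ pr k + 1 ≤ q ∧ q ≤ pr (k + 2) + 1}.ncard

/-- the length of the window -/
noncomputable def yp (k m : ℕ) : ℕ := min (pr (k + 1) + 1) (m - pr k - 1) - pr k

theorem gp_eq (T : Set ℕ) (k m : ℕ) (h1 : pr (k + 1) + 1 ≤ m) (h2 : m ≤ pr (k + 2) + 1) (h3 : 4 * pr k + 2 ≤ pr (k + 1)) :
    gp T k m = gw T m (pr k) (yp k m) := by
  unfold gp gw yp
  congr 1
  ext p
  simp only [Set.mem_ofPred_eq]
  have e : pr k + (min (pr (k + 1) + 1) (m - pr k - 1) - pr k) = min (pr (k + 1) + 1) (m - pr k - 1) := by omega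
  rw [e, le_min_iff]
  constructor
  · rintro ⟨a1, a2, a3, q, a4, a5, a6, a7⟩
    exact ⟨by omega, ⟨a2, by omega⟩, a3, q, a4, a5⟩
  · rintro ⟨a1, ⟨a2, a3⟩, a4, q, a5, a6⟩
    exact ⟨by omega, a2, a4, q, a5, a6, by omega, by omega⟩

theorem pr_grow : ∀ᶠ k in atTop, 4 * pr k + 2 ≤ pr (k + 1) ∧ pr (k + 1) ≤ pr k ^ 2 := by
  filter_upwards [pr_ratio.eventually_lt_const (show (1 : ℝ) < 2 by norm_num), pr_top.eventually_ge_atTop 3,
    eventually_ge_atTop 8] with k h1 h2 h3
  have h4 : (0 : ℝ) < pr k := by exact_mod_cast pr_pos k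
  have h5 : 0 < Real.log (pr k) := Real.log_pos (by exact_mod_cast (by omega : 1 < pr k))
  constructor
  · rw [pr_succ]
    have h6 := lt_nth k
    calc 4 * pr k + 2 ≤ pr k * 8 := by omega
      _ ≤ pr k * Nat.nth Nat.Prime k := Nat.mul_le_mul_left _ (by omega)
  · rw [div_lt_iff₀ h5, ← Real.log_rpow h4] at h1
    have h6 := (Real.log_lt_log_iff (by exact_mod_cast pr_pos (k + 1)) (by positivity)).1 h1
    have h7 : (pr (k + 1) : ℝ) < (pr k : ℝ) ^ 2 := by
      rw [← Real.rpow_natCast]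
      exact_mod_cast h6
    exact_mod_cast h7.le

/-- **The asymptotic formula in the primorial intervals.** -/
theorem gprim (z W : ℕ → ℕ) (hz : Limit z) (hW : Cut W) (b : ℕ → ℕ) (hOK : OK z W b) (c₂ : ℝ) (hc0 : 0 < c₂)
    (hc : Tendsto C2 atTop (𝓝 c₂)) (ε : ℝ) (hε : 0 < ε) :
    ∀ᶠ k : ℕ in atTop, ∀ m : ℕ, Even m → pr (k + 1) + 1 ≤ m → m ≤ pr (k + 2) + 1 →
      |(gp (RS z W b) k m : ℝ) * Real.log (pr (k + 1)) ^ 2 / (pr (k + 1) * TG c₂ m) - 1| ≤ ε := by
  by_contra hcon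
  rw [not_eventually] at hcon
  obtain ⟨φ, hφ, hφ2⟩ := extraction_of_frequently_atTop hcon
  push Not at hφ2
  choose m hev hm1 hm2 hbad using hφ2
  have hφt : Tendsto φ atTop atTop := hφ.tendsto_atTop
  have hgrow := hφt.eventually pr_grow
  have hgrow1 := ((tendsto_add_atTop_nat 1).comp hφt).eventually pr_grow
  have hgrow2 := ((tendsto_add_atTop_nat 2).comp hφt).eventually pr_grow
  have hp0 : Tendsto (fun n => pr (φ n)) atTop atTop := pr_top.comp hφt
  have hp1 : Tendsto (fun n => pr (φ n + 1)) atTop atTop := pr_top.comp ((tendsto_add_atTop_nat 1).comp hφt)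
  have hp3 : Tendsto (fun n => pr (φ n + 3)) atTop atTop := pr_top.comp ((tendsto_add_atTop_nat 3).comp hφt)
  have r0 : Tendsto (fun n => Real.log (pr (φ n + 1)) / Real.log (pr (φ n))) atTop (𝓝 1) := pr_ratio.comp hφt
  have r1 : Tendsto (fun n => Real.log (pr (φ n + 1 + 1)) / Real.log (pr (φ n + 1))) atTop (𝓝 1) :=
    pr_ratio.comp ((tendsto_add_atTop_nat 1).comp hφt)
  have r2 : Tendsto (fun n => Real.log (pr (φ n + 2 + 1)) / Real.log (pr (φ n + 2))) atTop (𝓝 1) :=
    pr_ratio.comp ((tendsto_add_atTop_nat 2).comp hφt)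
  have r3 : Tendsto (fun n => Real.log (pr (φ n + 1)) / Real.log (pr (φ n + 3))) atTop (𝓝 1) := by
    have h1 := (r1.mul r2).inv₀ (by norm_num)
    simp only [mul_one, inv_one] at h1
    refine h1.congr' ?_
    filter_upwards [(log_top.comp hp1).eventually_ge_atTop 1,
      (log_top.comp (pr_top.comp ((tendsto_add_atTop_nat 2).comp hφt))).eventually_ge_atTop 1,
      (log_top.comp hp3).eventually_ge_atTop 1] with n a1 a2 a3
    simp only [Function.comp_apply] at a1 a2 a3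
    have e1 : Real.log (pr (φ n + 1)) ≠ 0 := by linarith
    have e2 : Real.log (pr (φ n + 2)) ≠ 0 := by linarith
    have e3 : Real.log (pr (φ n + 3)) ≠ 0 := by linarith
    change (Real.log (pr (φ n + 2)) / Real.log (pr (φ n + 1)) * (Real.log (pr (φ n + 3)) / Real.log (pr (φ n + 2))))⁻¹ = _
    field_simp
  have hxt : Tendsto (fun n => pr (φ n + 1) + 1) atTop atTop := tendsto_atTop_mono (fun n => Nat.le_succ _) hp1
  have hmain := gseq z W hW b hOK c₂ hc0 hc 4 (by norm_num) (fun n => pr (φ n + 1) + 1) m (fun n => pr (φ n))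
    (fun n => yp (φ n) (m n)) (fun _ n => pr (φ n)) (fun _ n => pr (φ n + 3)) (fun _ n => Real.log (pr (φ n + 1))) hxt
    ?_ ?_ ?_ (fun _ => V_trans z hz _ _ hp0 r0) (fun _ => V_trans z hz _ _ hp3 r3)
  · -- the length of the window
    have hy : Tendsto (fun n => (yp (φ n) (m n) : ℝ) / pr (φ n + 1)) atTop (𝓝 1) := by
      have h1 : Tendsto (fun n => 1 - 2 / (Nat.nth Nat.Prime (φ n) : ℝ)) atTop (𝓝 (1 - 0)) := by
        refine tendsto_const_nhds.sub ?_
        refine tendsto_const_nhds.div_atTop ?_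
        refine tendsto_natCast_atTop_atTop.comp ?_
        exact (tendsto_atTop_mono (fun n => (lt_nth n).le) tendsto_id).comp hφt
      have h2 : Tendsto (fun n => 1 + 1 / (pr (φ n + 1) : ℝ)) atTop (𝓝 (1 + 0)) :=
        tendsto_const_nhds.add (tendsto_const_nhds.div_atTop (tendsto_natCast_atTop_atTop.comp hp1))
      rw [sub_zero] at h1
      rw [add_zero] at h2
      refine tendsto_of_tendsto_of_tendsto_of_le_of_le' h1 h2 ?_ ?_
      · filter_upwards [hgrow] with n hn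
        have h3 : pr (φ n + 1) - 2 * pr (φ n) ≤ yp (φ n) (m n) := by
          unfold yp
          have := hm1 n
          omega
        have h4 : (pr (φ n + 1) : ℝ) - 2 * pr (φ n) ≤ yp (φ n) (m n) := by
          have h5 : pr (φ n + 1) ≤ yp (φ n) (m n) + 2 * pr (φ n) := by omega
          have h6 : (pr (φ n + 1) : ℝ) ≤ yp (φ n) (m n) + 2 * pr (φ n) := by exact_mod_cast h5
          linarith
        have h5 : (0 : ℝ) < pr (φ n + 1) := by exact_mod_cast pr_pos _
        have h6 : (0 : ℝ) < pr (φ n) := by exact_mod_cast pr_pos _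
        have h7 : (0 : ℝ) < Nat.nth Nat.Prime (φ n) := by exact_mod_cast (Nat.prime_nth_prime _).pos
        rw [le_div_iff₀ h5]
        refine le_trans (le_of_eq ?_) h4
        rw [pr_succ]
        push_cast
        field_simp
      · filter_upwards [] with n
        have h3 : yp (φ n) (m n) ≤ pr (φ n + 1) + 1 := by
          unfold yp
          omega
        have h4 : (yp (φ n) (m n) : ℝ) ≤ pr (φ n + 1) + 1 := by exact_mod_cast h3
        have h5 : (0 : ℝ) < pr (φ n + 1) := by exact_mod_cast pr_pos _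
        rw [div_le_iff₀ h5, add_mul, div_mul_cancel₀ _ h5.ne', one_mul]
        exact h4
    have h1 := hmain.mul hy
    rw [one_mul] at h1
    have h2 : Tendsto (fun n => (gp (RS z W b) (φ n) (m n) : ℝ) * Real.log (pr (φ n + 1)) ^ 2 /
        (pr (φ n + 1) * TG c₂ (m n))) atTop (𝓝 1) := by
      refine h1.congr' ?_
      filter_upwards [hgrow] with n hn
      rw [gp_eq _ _ _ (hm1 n) (hm2 n) hn.1]
      have h3 : pr (φ n + 1) - 2 * pr (φ n) ≤ yp (φ n) (m n) := by
        unfold yp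
        have := hm1 n
        omega
      have h4 : (0 : ℝ) < yp (φ n) (m n) := by
        have := pr_pos (φ n)
        exact_mod_cast (by omega : 0 < yp (φ n) (m n))
      have h5 : (0 : ℝ) < pr (φ n + 1) := by exact_mod_cast pr_pos _
      have h6 : 0 < TG c₂ (m n) := lt_of_lt_of_le (by positivity) (TG_ge c₂ hc0 (m n))
      field_simp
    rw [Metric.tendsto_nhds] at h2
    obtain ⟨n, hn⟩ := (h2 ε hε).exists
    rw [Real.dist_eq] at hn
    exact absurd hn.le (not_le.2 (hbad n))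
  · filter_upwards [hgrow, hgrow1] with n h1 h2
    have h3 := hm1 n
    have h4 := hm2 n
    have h5 : pr (φ n + 2) ≤ pr (φ n + 1) ^ 2 := h2.2
    have h6 : 1 ≤ pr (φ n + 1) := pr_pos _
    have h7 : pr (φ n + 1) - 2 * pr (φ n) ≤ yp (φ n) (m n) := by
      unfold yp
      omega
    refine ⟨hev n, by omega, ?_, by omega, ?_, by omega⟩
    · calc m n ≤ pr (φ n + 1) ^ 2 + 1 := by omega
        _ ≤ (pr (φ n + 1) + 1) ^ 2 := by nlinarith
        _ ≤ (pr (φ n + 1) + 1) ^ 4 := Nat.pow_le_pow_right (by omega) (by norm_num)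
    · unfold yp
      omega
  · filter_upwards [hgrow, hgrow1, hgrow2, hp0.eventually_ge_atTop 2] with n h1 h2 h3 h4 i
    have h5 : pr (φ n + 2) ≤ pr (φ n + 1) ^ 2 := h2.2
    have h6 : pr (φ n + 3) ≤ pr (φ n + 2) ^ 2 := h3.2
    have h7 : 1 ≤ pr (φ n + 1) := pr_pos _
    refine ⟨?_, ?_, Real.log_natCast_nonneg _, ?_⟩
    · have h8 : pr (φ n + 1) + 1 ≤ pr (φ n) ^ 4 := by
        calc pr (φ n + 1) + 1 ≤ pr (φ n) ^ 2 + 1 := by
              have := h1.2
              omega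
          _ ≤ pr (φ n) ^ 4 := by nlinarith [Nat.pow_le_pow_left h4 2, Nat.pow_le_pow_left h4 4]
      have h9 := TT_le (1 / 4) (pr (φ n + 1) + 1)
      have h10 : (((pr (φ n + 1) + 1 : ℕ) : ℝ)) ^ (1 / 4 : ℝ) ≤ pr (φ n) := by
        have h11 : ((pr (φ n + 1) + 1 : ℕ) : ℝ) ≤ (pr (φ n) : ℝ) ^ 4 := by exact_mod_cast h8
        calc (((pr (φ n + 1) + 1 : ℕ) : ℝ)) ^ (1 / 4 : ℝ) ≤ ((pr (φ n) : ℝ) ^ 4) ^ (1 / 4 : ℝ) :=
              Real.rpow_le_rpow (by positivity) h11 (by norm_num)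
          _ = pr (φ n) := by
              rw [← Real.rpow_natCast, ← Real.rpow_mul (by positivity)]
              norm_num
      exact_mod_cast h9.trans h10
    · calc pr (φ n + 3) ≤ pr (φ n + 2) ^ 2 := h6
        _ ≤ (pr (φ n + 1) ^ 2) ^ 2 := Nat.pow_le_pow_left h5 2
        _ = pr (φ n + 1) ^ 4 := by ring
        _ ≤ (pr (φ n + 1) + 1) ^ 4 := Nat.pow_le_pow_left (by omega) 4
    · have h8 : Real.log (pr (φ n + 1)) ≤ Real.log ((pr (φ n + 1) + 1 : ℕ) : ℝ) :=
        Real.log_le_log (by exact_mod_cast h7) (by exact_mod_cast Nat.le_succ _)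
      have h9 : 0 ≤ Real.log ((pr (φ n + 1) + 1 : ℕ) : ℝ) := Real.log_natCast_nonneg _
      push_cast at h8 h9 ⊢
      linarith
  · filter_upwards [hgrow, hgrow1, hgrow2] with n h1 h2 h3 j h4 h5
    have h6 := hm1 n
    have h7 := hm2 n
    have h8 : pr (φ n + 2) * 4 + 2 ≤ pr (φ n + 3) := by
      have : 4 * pr (φ n + 2) + 2 ≤ pr (φ n + 3) := h3.1
      omega
    have h9 : 4 * pr (φ n + 1) + 2 ≤ pr (φ n + 2) := h2.1
    unfold yp at h5
    omega

end Pool.Agent.H559.SI
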