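import Pool.Agent.H559.SI.GW

set_option autoImplicit false

/-! # Goldbach's problem with a summand in a window: the asymptotic formula along sequences -/

open Finset Filter Topology
open Pool.Agent.T2H32.BF (V V_pos V_anti V_ratio recip_le mertens)
open Pool.Agent.H559.BS (Limit TT TT_le TT_ge TT_top log_TT V_TT log_pow_le log_top g g_pos)
open Pool.Agent.H559.HY
open Pool.Agent.T2H32.GB (C2 C2_succ C2_pos C2_anti C2_ge)

namespace Pool.Agent.H559.SI

theorem cut_top (W : ℕ → ℕ) (hW : Cut W) :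
    Tendsto (fun x : ℕ => (W (TT (1 / 4) x) : ℝ) / Real.log x) atTop atTop := by
  have h1 := hW.top.comp (TT_top (1 / 4) (by norm_num))
  have h2 := log_TT_lim (1 / 4) (by norm_num)
  have h3 : Tendsto (fun n : ℕ => (Real.log (TT (1 / 4) n) / Real.log n) * ((W (TT (1 / 4) n) : ℝ) / Real.log (TT (1 / 4) n)))
      atTop atTop := h2.pos_mul_atTop (by norm_num) h1
  refine h3.congr' ?_
  filter_upwards [(log_top.comp (TT_top (1 / 4) (by norm_num))).eventually_ge_atTop 1] with n hn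
  simp only [Function.comp_apply] at hn
  have : Real.log (TT (1 / 4) n) ≠ 0 := by linarith
  field_simp

theorem zero_RS (z W : ℕ → ℕ) (b : ℕ → ℕ) : 0 ∉ RS z W b := by
  intro h
  have := h.1
  omega

/-- **The asymptotic formula.** -/
theorem gseq (z W : ℕ → ℕ) (hW : Cut W) (b : ℕ → ℕ) (hOK : OK z W b) (c₂ : ℝ) (hc0 : 0 < c₂)
    (hc : Tendsto C2 atTop (𝓝 c₂)) (A : ℕ) (hA : 1 ≤ A) (x N u y : ℕ → ℕ) (lo hi : Fin 2 → ℕ → ℕ) (L : Fin 2 → ℕ → ℝ)
    (hx : Tendsto x atTop atTop)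
    (hN : ∀ᶠ n in atTop, Even (N n) ∧ N n ≠ 0 ∧ N n ≤ x n ^ A ∧ u n ≤ N n ∧ y n ≤ x n ∧ x n ≤ 2 * y n)
    (hb : ∀ᶠ n in atTop, ∀ i, TT (1 / 4) (x n) ≤ lo i n ∧ hi i n ≤ x n ^ A ∧ 0 ≤ L i n ∧ L i n ≤ A * Real.log (x n))
    (hv : ∀ᶠ n in atTop, ∀ m, 0 < m → m ≤ y n → lo 0 n ≤ u n + m ∧ u n + m ≤ hi 0 n ∧ lo 1 n + (u n + m) ≤ N n ∧
      N n ≤ hi 1 n + (u n + m))
    (hL1 : ∀ i, Tendsto (fun n => V (z (lo i n)) * L i n) atTop (𝓝 1))
    (hL2 : ∀ i, Tendsto (fun n => V (z (hi i n)) * L i n) atTop (𝓝 1)) :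
    Tendsto (fun n => (gw (RS z W b) (N n) (u n) (y n) : ℝ) * (L 0 n * L 1 n) / (y n * TG c₂ (N n))) atTop (𝓝 1) := by
  have hlx : Tendsto (fun n => Real.log (x n)) atTop atTop := log_top.comp hx
  have hWx := (cut_top W hW).comp hx
  have hWt : Tendsto (fun n => ((W (TT (1 / 4) (x n)) : ℕ) : ℝ)) atTop atTop := by
    have h2 := hWx.atTop_mul_atTop₀ hlx
    refine h2.congr' ?_
    filter_upwards [hlx.eventually_ge_atTop 1] with n hn
    simp only [Function.comp_apply]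
    rw [div_mul_cancel₀ _ (by linarith : Real.log (x n) ≠ 0)]
  -- the exponent of the tail
  have hexp : Tendsto (fun n => (Real.log (N n) / Real.log 2) / ((W (TT (1 / 4) (x n)) : ℝ) - 1)) atTop (𝓝 0) := by
    have h1 : Tendsto (fun n => (2 * A / Real.log 2) / ((W (TT (1 / 4) (x n)) : ℝ) / Real.log (x n))) atTop (𝓝 0) :=
      tendsto_const_nhds.div_atTop hWx
    refine squeeze_zero' ?_ ?_ h1
    · filter_upwards [hWt.eventually_ge_atTop 2] with n h2
      have h3 := Real.log_natCast_nonneg (N n)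
      have h4 := Real.log_pos (by norm_num : (1 : ℝ) < 2)
      have h5 : (0 : ℝ) < (W (TT (1 / 4) (x n)) : ℝ) - 1 := by linarith
      positivity
    · filter_upwards [hWt.eventually_ge_atTop 2, hN, hlx.eventually_ge_atTop 1] with n h2 h3 h4
      have h5 : Real.log (N n) ≤ A * Real.log (x n) := by
        rw [← Real.log_pow]
        refine Real.log_le_log (by exact_mod_cast Nat.pos_of_ne_zero h3.2.1) ?_
        exact_mod_cast h3.2.2.1
      have h6 := Real.log_pos (by norm_num : (1 : ℝ) < 2)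
      have h7 : (0 : ℝ) < (W (TT (1 / 4) (x n)) : ℝ) - 1 := by linarith
      have h8 : (0 : ℝ) < Real.log (x n) := by linarith
      have h9 : (0 : ℝ) < (W (TT (1 / 4) (x n)) : ℝ) := by linarith
      have h10 : (0 : ℝ) ≤ A := Nat.cast_nonneg _
      rw [div_le_div_iff₀ h7 (by positivity)]
      have e1 : Real.log (N n) / Real.log 2 * ((W (TT (1 / 4) (x n)) : ℝ) / Real.log (x n)) ≤
          A / Real.log 2 * (W (TT (1 / 4) (x n)) : ℝ) := by
        have h11 : Real.log (N n) / Real.log (x n) ≤ A := by rw [div_le_iff₀ h8]; exact h5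
        calc Real.log (N n) / Real.log 2 * ((W (TT (1 / 4) (x n)) : ℝ) / Real.log (x n)) =
            (Real.log (N n) / Real.log (x n)) * ((W (TT (1 / 4) (x n)) : ℝ) / Real.log 2) := by ring
          _ ≤ A * ((W (TT (1 / 4) (x n)) : ℝ) / Real.log 2) := mul_le_mul_of_nonneg_right h11 (by positivity)
          _ = A / Real.log 2 * (W (TT (1 / 4) (x n)) : ℝ) := by ring
      refine e1.trans ?_
      have h12 : 0 ≤ A / Real.log 2 := by positivity
      calc A / Real.log 2 * (W (TT (1 / 4) (x n)) : ℝ) ≤ A / Real.log 2 * (2 * ((W (TT (1 / 4) (x n)) : ℝ) - 1)) :=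
            mul_le_mul_of_nonneg_left (by linarith) h12
        _ = 2 * A / Real.log 2 * ((W (TT (1 / 4) (x n)) : ℝ) - 1) := by ring
  -- the ratio of the series
  set s : ℕ → ℝ := fun n => Sg (Gn (N n)) (W (TT (1 / 4) (x n))) / TG c₂ (N n) with hs
  have hTG : ∀ n, 0 < TG c₂ n := fun n => lt_of_lt_of_le (by positivity) (TG_ge c₂ hc0 n)
  have hslim : Tendsto s atTop (𝓝 1) := by
    have h1 : Tendsto (fun n => Real.exp (-((Real.log (N n) / Real.log 2) / ((W (TT (1 / 4) (x n)) : ℝ) - 1)))) atTop (𝓝 1) := by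
      have h2 := (Real.continuous_exp.tendsto _).comp hexp.neg
      rw [neg_zero, Real.exp_zero] at h2
      exact h2
    have h2 : Tendsto (fun n => C2 (W (TT (1 / 4) (x n))) / c₂) atTop (𝓝 1) := by
      have h3 := (hc.comp (tendsto_natCast_atTop_iff.1 hWt)).div_const c₂
      rw [div_self hc0.ne'] at h3
      exact h3
    refine tendsto_of_tendsto_of_tendsto_of_le_of_le' h1 h2 ?_ ?_
    · filter_upwards [hN, hWt.eventually_ge_atTop 2] with n h3 h4
      rw [hs]
      dsimp only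
      rw [le_div_iff₀ (hTG _)]
      exact (S_T c₂ hc hc0 (N n) _ h3.1 h3.2.1 (by exact_mod_cast h4)).1
    · filter_upwards [hN, hWt.eventually_ge_atTop 2] with n h3 h4
      rw [hs]
      dsimp only
      rw [div_le_iff₀ (hTG _)]
      exact (S_T c₂ hc hc0 (N n) _ h3.1 h3.2.1 (by exact_mod_cast h4)).2
  have hE : Tendsto (fun n => (A : ℝ) ^ 2 / (c₂ * Real.log (x n))) atTop (𝓝 0) :=
    tendsto_const_nhds.div_atTop (hlx.const_mul_atTop hc0)
  -- the two bounds
  have key : ∀ j : ℕ, ∃ U Lw : ℕ → ℝ, Tendsto U atTop (𝓝 (1 + 1 / ((j : ℝ) + 1))) ∧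
      Tendsto Lw atTop (𝓝 (1 - 1 / ((j : ℝ) + 1))) ∧
      ∀ᶠ n : ℕ in atTop, Lw n ≤ (gw (RS z W b) (N n) (u n) (y n) : ℝ) * (L 0 n * L 1 n) / (y n * TG c₂ (N n)) ∧
        (gw (RS z W b) (N n) (u n) (y n) : ℝ) * (L 0 n * L 1 n) / (y n * TG c₂ (N n)) ≤ U n := by
    intro j
    refine ⟨fun n => (1 + 1 / ((j : ℝ) + 1)) * (s n * ((V (z (lo 0 n)) * L 0 n) * (V (z (lo 1 n)) * L 1 n))) +
        (A : ℝ) ^ 2 / (c₂ * Real.log (x n)), fun n => (1 - 1 / ((j : ℝ) + 1)) *
        (s n * ((V (z (hi 0 n)) * L 0 n) * (V (z (hi 1 n)) * L 1 n))) - (A : ℝ) ^ 2 / (c₂ * Real.log (x n)), ?_, ?_, ?_⟩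
    · have h1 := ((hslim.mul ((hL1 0).mul (hL1 1))).const_mul (1 + 1 / ((j : ℝ) + 1))).add hE
      simpa using h1
    · have h1 := ((hslim.mul ((hL2 0).mul (hL2 1))).const_mul (1 - 1 / ((j : ℝ) + 1))).sub hE
      simpa using h1
    · filter_upwards [hN, hb, hv, hx.eventually (hOK 2 1 (A + 1) 2 3 j (by omega)), hlx.eventually_ge_atTop 1,
        hx.eventually_ge_atTop 2] with n a1 a2 a3 a4 a5 a6
      obtain ⟨c1, c2, c3, c4, c5, c6⟩ := a1
      have hx0 : (0 : ℝ) < x n := by exact_mod_cast (by omega : 0 < x n)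
      have hy0 : (0 : ℝ) < y n := by exact_mod_cast (by omega : 0 < y n)
      have hxy : (x n : ℝ) ≤ 2 * y n := by exact_mod_cast c6
      have hpw : x n ^ A ≤ x n ^ (A + 1) := Nat.pow_le_pow_right (by omega) (by omega)
      have hl0 : (0 : ℝ) < Real.log (x n) := by linarith
      obtain ⟨b1, b2⟩ := a4 (Gs (N n) (u n)) (box_Gs _ _ _ c4 (c3.trans hpw) (Nat.one_le_pow _ _ (by omega)))
        (fun p hp hlt => good_Gs _ _ p hp hlt) 0 (y n) (fun i => lo i n) (fun i => hi i n) (by omega) c5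
        (fun i => (a2 i).1) (fun i => (a2 i).2.1.trans hpw) (fun m hm i => by
          rw [mem_Ioc] at hm
          obtain ⟨d1, d2, d3, d4⟩ := a3 m hm.1 (by omega)
          fin_cases i
          · change ((lo 0 n : ℕ) : ℤ) ≤ evl (Gs (N n) (u n) 0) m ∧ evl (Gs (N n) (u n) 0) m ≤ ((hi 0 n : ℕ) : ℤ)
            rw [evl_Gs0]
            omega
          · change ((lo 1 n : ℕ) : ℤ) ≤ evl (Gs (N n) (u n) 1) m ∧ evl (Gs (N n) (u n) 1) m ≤ ((hi 1 n : ℕ) : ℤ)
            rw [evl_Gs1]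
            omega)
      rw [gw_eq _ (zero_RS z W b)] at b1 b2
      rw [Sg_Gs, Fin.prod_univ_two] at b1 b2
      have hT := hTG (N n)
      have hTc := TG_ge c₂ hc0 (N n)
      set G := (gw (RS z W b) (N n) (u n) (y n) : ℝ) with hG
      set S0 := Sg (Gn (N n)) (W (TT (1 / 4) (x n))) with hS0
      set T0 := TG c₂ (N n) with hT0
      set ll := Real.log (x n) with hll
      have hL00 := (a2 0).2.2.1
      have hL01 := (a2 1).2.2.1
      have hLL : L 0 n * L 1 n ≤ (A : ℝ) ^ 2 * ll ^ 2 := by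
        calc L 0 n * L 1 n ≤ (A * ll) * (A * ll) := mul_le_mul (a2 0).2.2.2 (a2 1).2.2.2 hL01 (by positivity)
          _ = (A : ℝ) ^ 2 * ll ^ 2 := by ring
      have herr : (x n / ll ^ 3) * (L 0 n * L 1 n) / (y n * T0) ≤ (A : ℝ) ^ 2 / (c₂ * ll) := by
        rw [div_le_div_iff₀ (by positivity) (by positivity)]
        have h1 : (x n / ll ^ 3) * (L 0 n * L 1 n) ≤ (2 * y n / ll ^ 3) * ((A : ℝ) ^ 2 * ll ^ 2) :=
          mul_le_mul (div_le_div_of_nonneg_right hxy (by positivity)) hLL (by positivity) (by positivity)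
        calc (x n / ll ^ 3) * (L 0 n * L 1 n) * (c₂ * ll) ≤ (2 * y n / ll ^ 3) * ((A : ℝ) ^ 2 * ll ^ 2) * (c₂ * ll) :=
              mul_le_mul_of_nonneg_right h1 (by positivity)
          _ = (A : ℝ) ^ 2 * (y n * (2 * c₂)) := by field_simp
          _ ≤ (A : ℝ) ^ 2 * (y n * T0) := by
              refine mul_le_mul_of_nonneg_left (mul_le_mul_of_nonneg_left hTc hy0.le) (by positivity)
      have hpos : 0 ≤ (L 0 n * L 1 n) / (y n * T0) := by positivity
      have hsn : s n = S0 / T0 := rfl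
      constructor
      · have h1 := mul_le_mul_of_nonneg_right b1 hpos
        have e1 : ((1 - 1 / ((j : ℝ) + 1)) * ((y n : ℝ) * (S0 * (V (z (hi 0 n)) * V (z (hi 1 n))))) - x n / ll ^ 3) *
            ((L 0 n * L 1 n) / (y n * T0)) = (1 - 1 / ((j : ℝ) + 1)) *
            (s n * ((V (z (hi 0 n)) * L 0 n) * (V (z (hi 1 n)) * L 1 n))) - (x n / ll ^ 3) * (L 0 n * L 1 n) / (y n * T0) := by
          rw [hsn]
          field_simp
        rw [e1] at h1
        have e2 : G * ((L 0 n * L 1 n) / (y n * T0)) = G * (L 0 n * L 1 n) / (y n * T0) := by ring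
        rw [e2] at h1
        linarith
      · have h1 := mul_le_mul_of_nonneg_right b2 hpos
        have e1 : ((1 + 1 / ((j : ℝ) + 1)) * ((y n : ℝ) * (S0 * (V (z (lo 0 n)) * V (z (lo 1 n))))) + x n / ll ^ 3) *
            ((L 0 n * L 1 n) / (y n * T0)) = (1 + 1 / ((j : ℝ) + 1)) *
            (s n * ((V (z (lo 0 n)) * L 0 n) * (V (z (lo 1 n)) * L 1 n))) + (x n / ll ^ 3) * (L 0 n * L 1 n) / (y n * T0) := by
          rw [hsn]
          field_simp
        rw [e1] at h1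
        have e2 : G * ((L 0 n * L 1 n) / (y n * T0)) = G * (L 0 n * L 1 n) / (y n * T0) := by ring
        rw [e2] at h1
        linarith
  have hinv : Tendsto (fun j : ℕ => 1 / ((j : ℝ) + 1)) atTop (𝓝 0) := tendsto_one_div_add_atTop_nhds_zero_nat
  rw [tendsto_order]
  constructor
  · intro a ha
    have h1 : Tendsto (fun j : ℕ => 1 - 1 / ((j : ℝ) + 1)) atTop (𝓝 (1 - 0)) := tendsto_const_nhds.sub hinv
    rw [sub_zero] at h1
    obtain ⟨j, hj⟩ := (h1.eventually_const_lt ha).exists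
    obtain ⟨U, Lw, _, h3, h4⟩ := key j
    filter_upwards [h3.eventually_const_lt hj, h4] with n b1 b2
    exact lt_of_lt_of_le b1 b2.1
  · intro a ha
    have h1 : Tendsto (fun j : ℕ => 1 + 1 / ((j : ℝ) + 1)) atTop (𝓝 (1 + 0)) := tendsto_const_nhds.add hinv
    rw [add_zero] at h1
    obtain ⟨j, hj⟩ := (h1.eventually_lt_const ha).exists
    obtain ⟨U, Lw, h2, _, h4⟩ := key j
    filter_upwards [h2.eventually_lt_const hj, h4] with n b1 b2
    exact lt_of_le_of_lt b2.2 b1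

end Pool.Agent.H559.SI
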