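import Pool.Agent.H559.SI.Base

set_option autoImplicit false

/-! # The tuples in the short intervals -/

open Finset Filter Topology Polynomial
open Pool.Agent.T2H32.BF (V V_pos V_anti V_ratio recip_le mertens)
open Pool.Agent.H559.BS (Limit TT TT_le TT_ge TT_top log_TT V_TT log_pow_le log_top g g_pos)
open Pool.Agent.H559.HY (Arr evl rts rts_sub arr evl_arr Sg cnt RS box mem_box Cut OK Good cls cls_eq_iff Sg_nonneg)

namespace Pool.Agent.H559.SI

variable {k : ℕ}

/-- the density at a point of the size of `X` -/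
theorem V_near (z : ℕ → ℕ) (hz : Limit z) (X Y : ℕ → ℕ) (hX : Tendsto X atTop atTop) (hXY : ∀ᶠ x in atTop, X x ≤ Y x)
    (hY : ∀ᶠ x in atTop, Y x ≤ 3 * X x) : Tendsto (fun x => V (z (Y x)) * Real.log (X x)) atTop (𝓝 1) := by
  have hYt : Tendsto Y atTop atTop := tendsto_atTop_mono' atTop hXY hX
  have h1 := hz.2.comp hYt
  have hlX : Tendsto (fun x => Real.log (X x)) atTop atTop := log_top.comp hX
  have h2 : Tendsto (fun x => Real.log (Y x) / Real.log (X x)) atTop (𝓝 1) := by
    have h3 : Tendsto (fun x => 1 + Real.log 3 / Real.log (X x)) atTop (𝓝 (1 + 0)) :=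
      tendsto_const_nhds.add (tendsto_const_nhds.div_atTop hlX)
    rw [add_zero] at h3
    refine tendsto_of_tendsto_of_tendsto_of_le_of_le' tendsto_const_nhds h3 ?_ ?_
    · filter_upwards [hXY, hlX.eventually_ge_atTop 1, hX.eventually_ge_atTop 1] with x a1 a2 a3
      rw [le_div_iff₀ (by linarith), one_mul]
      exact Real.log_le_log (by exact_mod_cast a3) (by exact_mod_cast a1)
    · filter_upwards [hXY, hY, hlX.eventually_ge_atTop 1, hX.eventually_ge_atTop 1] with x a0 a1 a2 a3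
      have hX0 : (0 : ℝ) < X x := by exact_mod_cast a3
      have hY0 : (0 : ℝ) < Y x := by exact_mod_cast (by omega : 0 < Y x)
      have h4 : Real.log (Y x) ≤ Real.log 3 + Real.log (X x) := by
        rw [← Real.log_mul (by norm_num) hX0.ne']
        refine Real.log_le_log hY0 ?_
        exact_mod_cast a1
      rw [div_le_iff₀ (by linarith), add_mul, div_mul_cancel₀ _ (by linarith : Real.log (X x) ≠ 0)]
      linarith
  have h3 := h1.div h2 one_ne_zero
  rw [div_one] at h3
  refine h3.congr' ?_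
  filter_upwards [hlX.eventually_ge_atTop 1, (log_top.comp hYt).eventually_ge_atTop 1] with x a1 a2
  simp only [Function.comp_apply, Pi.div_apply] at a2 ⊢
  have h4 : Real.log (X x) ≠ 0 := by linarith
  have h5 : Real.log (Y x) ≠ 0 := by linarith
  field_simp

theorem alg1 (c x S V L P : ℝ) (k : ℕ) (hx : 0 < x) :
    (c * (x * (S * V ^ k)) - x / P) * L ^ k / x = c * (S * (V * L) ^ k) - L ^ k / P := by
  rw [mul_pow]
  by_cases hP : P = 0
  · subst hP
    simp
    field_simp
  · field_simp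

theorem alg2 (c x S V L P : ℝ) (k : ℕ) (hx : 0 < x) :
    (c * (x * (S * V ^ k)) + x / P) * L ^ k / x = c * (S * (V * L) ^ k) + L ^ k / P := by
  rw [mul_pow]
  by_cases hP : P = 0
  · subst hP
    simp
    field_simp
  · field_simp

/-- **The asymptotic formula in the short intervals.** -/
theorem seq (z W : ℕ → ℕ) (hz : Limit z) (hW : Cut W) (b : ℕ → ℕ) (hOK : OK z W b) (h : Fin k → ℕ)
    (hh : Function.Injective h) (S : ℝ) (hS : Tendsto (fun w : ℕ => Sg (sh 0 h) w) atTop (𝓝 S)) (A : ℕ) (hA : 1 ≤ A)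
    (X : ℕ → ℕ) (hX1 : ∀ᶠ x in atTop, x ≤ X x) (hX2 : ∀ᶠ x : ℕ in atTop, X x ≤ x ^ A) :
    Tendsto (fun x : ℕ => (cnt (sh (X x) h) (RS z W b) 0 x : ℝ) * Real.log (X x) ^ k / x) atTop (𝓝 S) := by
  have hS0 : 0 ≤ S := ge_of_tendsto' hS fun x => Sg_nonneg _ _
  have hXt : Tendsto X atTop atTop := tendsto_atTop_mono' atTop hX1 tendsto_id
  have hWt : Tendsto (fun x : ℕ => W (TT (1 / 4) x)) atTop atTop := by
    have h1 : Tendsto (fun n : ℕ => (W n : ℝ)) atTop atTop := by
      have h2 := hW.top.atTop_mul_atTop₀ log_top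
      refine h2.congr' ?_
      filter_upwards [log_top.eventually_ge_atTop 1] with n hn
      rw [div_mul_cancel₀ _ (by linarith : Real.log n ≠ 0)]
    exact (tendsto_natCast_atTop_iff.1 h1).comp (TT_top (1 / 4) (by norm_num))
  have hS' := hS.comp hWt
  -- the densities
  set Y : ℕ → ℕ := fun x => X x + x + mxh h with hY
  have hY1 : ∀ᶠ x in atTop, X x ≤ Y x := Eventually.of_forall fun x => by rw [hY]; dsimp only; omega
  have hY2 : ∀ᶠ x in atTop, Y x ≤ 3 * X x := by
    filter_upwards [hX1, eventually_ge_atTop (mxh h)] with x a1 a2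
    rw [hY]
    dsimp only
    omega
  have hV1 := V_near z hz X X hXt (Eventually.of_forall fun x => le_rfl) (Eventually.of_forall fun x => by omega)
  have hV2 := V_near z hz X Y hXt hY1 hY2
  -- the error
  have hE : Tendsto (fun x : ℕ => Real.log (X x) ^ k / Real.log x ^ (k + 1)) atTop (𝓝 0) := by
    have h1 : Tendsto (fun x : ℕ => (A : ℝ) ^ k / Real.log x) atTop (𝓝 0) := tendsto_const_nhds.div_atTop log_top
    refine squeeze_zero' ?_ ?_ h1
    · filter_upwards with x
      have h2 := Real.log_natCast_nonneg x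
      have h3 := Real.log_natCast_nonneg (X x)
      positivity
    · filter_upwards [hX1, hX2, log_top.eventually_ge_atTop 1, eventually_ge_atTop 1] with x a1 a2 a3 a4
      have hX0 : (0 : ℝ) < X x := by exact_mod_cast (by omega : 0 < X x)
      have h2 : Real.log (X x) ≤ A * Real.log x := by
        rw [← Real.log_pow]
        refine Real.log_le_log hX0 ?_
        exact_mod_cast a2
      have h3 := Real.log_natCast_nonneg (X x)
      have hL : 0 < Real.log x := by linarith
      rw [pow_succ, ← div_div]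
      rw [div_le_div_iff_of_pos_right hL, div_le_iff₀ (by positivity), ← mul_pow]
      exact pow_le_pow_left₀ h3 h2 k
  -- the two bounds
  have key : ∀ n : ℕ, ∃ U Lw : ℕ → ℝ, Tendsto U atTop (𝓝 ((1 + 1 / ((n : ℝ) + 1)) * S)) ∧
      Tendsto Lw atTop (𝓝 ((1 - 1 / ((n : ℝ) + 1)) * S)) ∧
      ∀ᶠ x : ℕ in atTop, Lw x ≤ (cnt (sh (X x) h) (RS z W b) 0 x : ℝ) * Real.log (X x) ^ k / x ∧
        (cnt (sh (X x) h) (RS z W b) 0 x : ℝ) * Real.log (X x) ^ k / x ≤ U x := by
    intro n
    refine ⟨fun x => (1 + 1 / ((n : ℝ) + 1)) * (Sg (sh 0 h) (W (TT (1 / 4) x)) * (V (z (X x)) * Real.log (X x)) ^ k) +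
        Real.log (X x) ^ k / Real.log x ^ (k + 1), fun x => (1 - 1 / ((n : ℝ) + 1)) *
        (Sg (sh 0 h) (W (TT (1 / 4) x)) * (V (z (Y x)) * Real.log (X x)) ^ k) -
        Real.log (X x) ^ k / Real.log x ^ (k + 1), ?_, ?_, ?_⟩
    · have h1 := ((hS'.mul (hV1.pow k)).const_mul (1 + 1 / ((n : ℝ) + 1))).add hE
      rw [one_pow, mul_one, add_zero] at h1
      exact h1
    · have h1 := ((hS'.mul (hV2.pow k)).const_mul (1 - 1 / ((n : ℝ) + 1))).sub hE
      rw [one_pow, mul_one, sub_zero] at h1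
      exact h1
    · filter_upwards [hX1, hX2, hOK k 1 (A + 2) (mxh h) (k + 1) n (by omega), eventually_ge_atTop (mxh h + 3),
        log_top.eventually_ge_atTop 1] with x a1 a2 a3 a4 a5
      have hx0 : (0 : ℝ) < x := by exact_mod_cast (by omega : 0 < x)
      have hxA : X x + x + mxh h ≤ x ^ (A + 2) := by
        have h1 : x ≤ x ^ A := Nat.le_self_pow (by omega) x
        calc X x + x + mxh h ≤ x ^ A + x ^ A + x ^ A := by omega
          _ = 3 * x ^ A := by ring
          _ ≤ x ^ 2 * x ^ A := Nat.mul_le_mul_right _ (by nlinarith)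
          _ = x ^ (A + 2) := by ring
      have hTx : TT (1 / 4) x ≤ x := by
        have h3 := TT_le (1 / 4) x
        have h4 : (x : ℝ) ^ (1 / 4 : ℝ) ≤ (x : ℝ) ^ (1 : ℝ) :=
          Real.rpow_le_rpow_of_exponent_le (by exact_mod_cast (by omega : 1 ≤ x)) (by norm_num)
        rw [Real.rpow_one] at h4
        exact_mod_cast h3.trans h4
      obtain ⟨b1, b2⟩ := a3 (sh (X x) h) (box_sh _ _ _ (Nat.one_le_pow _ _ (by omega)) (by omega))
        (fun p hp hlt => good_sh _ _ hh p hp hlt) 0 x (fun _ => X x) (fun _ => Y x) (by omega) le_rfl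
        (fun _ => hTx.trans a1) (fun _ => hxA) (fun m hm i => by
          rw [mem_Ioc] at hm
          rw [evl_sh]
          have h5 := le_mxh h i
          rw [hY]
          dsimp only
          constructor
          · exact_mod_cast (by omega : X x ≤ X x + m + h i)
          · exact_mod_cast (by omega : X x + m + h i ≤ X x + x + mxh h))
      rw [Sg_sh, prod_const, card_univ, Fintype.card_fin] at b1 b2
      have hLk : 0 ≤ Real.log (X x) ^ k := pow_nonneg (Real.log_natCast_nonneg _) k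
      constructor
      · rw [← alg1 _ (x : ℝ) _ _ _ _ k hx0]
        refine div_le_div_of_nonneg_right (mul_le_mul_of_nonneg_right ?_ hLk) hx0.le
        exact b1
      · rw [← alg2 _ (x : ℝ) _ _ _ _ k hx0]
        refine div_le_div_of_nonneg_right (mul_le_mul_of_nonneg_right ?_ hLk) hx0.le
        exact b2
  have hinv : Tendsto (fun n : ℕ => 1 / ((n : ℝ) + 1)) atTop (𝓝 0) := tendsto_one_div_add_atTop_nhds_zero_nat
  rw [tendsto_order]
  constructor
  · intro a ha
    have h1 : Tendsto (fun n : ℕ => (1 - 1 / ((n : ℝ) + 1)) * S) atTop (𝓝 ((1 - 0) * S)) :=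
      (tendsto_const_nhds.sub hinv).mul_const S
    rw [sub_zero, one_mul] at h1
    obtain ⟨n, hn⟩ := (h1.eventually_const_lt ha).exists
    obtain ⟨U, Lw, _, h3, h4⟩ := key n
    filter_upwards [h3.eventually_const_lt hn, h4] with x b1 b2
    exact lt_of_lt_of_le b1 b2.1
  · intro a ha
    have h1 : Tendsto (fun n : ℕ => (1 + 1 / ((n : ℝ) + 1)) * S) atTop (𝓝 ((1 + 0) * S)) :=
      (tendsto_const_nhds.add hinv).mul_const S
    rw [add_zero, one_mul] at h1
    obtain ⟨n, hn⟩ := (h1.eventually_lt_const ha).exists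
    obtain ⟨U, Lw, h2, _, h4⟩ := key n
    filter_upwards [h2.eventually_lt_const hn, h4] with x b1 b2
    exact lt_of_le_of_lt b2.2 b1

/-- **The uniform form.** -/
theorem short (z W : ℕ → ℕ) (hz : Limit z) (hW : Cut W) (b : ℕ → ℕ) (hOK : OK z W b) (h : Fin k → ℕ)
    (hh : Function.Injective h) (S : ℝ) (hS : Tendsto (fun w : ℕ => Sg (sh 0 h) w) atTop (𝓝 S)) (A : ℕ) (hA : 1 ≤ A)
    (ε : ℝ) (hε : 0 < ε) : ∀ᶠ x : ℕ in atTop, ∀ X : ℕ, x ≤ X → X ≤ x ^ A →
      |(cnt (sh X h) (RS z W b) 0 x : ℝ) * Real.log X ^ k / x - S| ≤ ε := by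
  classical
  have hex : ∀ x : ℕ, ∃ X : ℕ, (1 ≤ x → x ≤ X ∧ X ≤ x ^ A) ∧ ((|(cnt (sh X h) (RS z W b) 0 x : ℝ) * Real.log X ^ k / x - S| ≤ ε) →
      ∀ Y : ℕ, x ≤ Y → Y ≤ x ^ A → |(cnt (sh Y h) (RS z W b) 0 x : ℝ) * Real.log Y ^ k / x - S| ≤ ε) := by
    intro x
    by_cases h1 : ∀ Y : ℕ, x ≤ Y → Y ≤ x ^ A → |(cnt (sh Y h) (RS z W b) 0 x : ℝ) * Real.log Y ^ k / x - S| ≤ ε
    · exact ⟨x, fun h2 => ⟨le_rfl, Nat.le_self_pow (by omega) x⟩, fun _ => h1⟩
    · push Not at h1
      obtain ⟨Y, h2, h3, h4⟩ := h1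
      exact ⟨Y, fun _ => ⟨h2, h3⟩, fun h5 => absurd h5 (not_le.2 h4)⟩
  choose X hX1 hX2 using hex
  have h1 := seq z W hz hW b hOK h hh S hS A hA X (by
    filter_upwards [eventually_ge_atTop 1] with x hx
    exact (hX1 x hx).1) (by
    filter_upwards [eventually_ge_atTop 1] with x hx
    exact (hX1 x hx).2)
  have h2 := (tendsto_iff_norm_sub_tendsto_zero.1 h1).eventually_le_const hε
  filter_upwards [h2] with x hx
  rw [Real.norm_eq_abs] at hx
  exact hX2 x hx

end Pool.Agent.H559.SI
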